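import Pool.Agent.H4.LD.Lw

set_option autoImplicit false

/-! The law of the derivative with weights: upper bounds. -/

open Filter Topology MeasureTheory Complex ProbabilityTheory

namespace Pool.Agent.H4.LD

open Pool.Agent Pool.Agent.Q97.UM

noncomputable section

open Classical in
theorem wlaw_upg (W : Wgt) (hm : 0 < W.m) (S S' : Set ℝ) (hS' : MeasurableSet S') (r η ε : ℝ) (hε : 0 < ε) (hη0 : 0 < η) (hr0 : 0 < r) (hr1 : r < 1)
    (hshift : ∀ x y ρ : ℝ, |y - x * ρ| ≤ η / 2 → r ≤ ρ → ρ ≤ 1 → y ∈ S → x ∈ S') (hUB : UB S' (ε / 4))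
    (hg : (gaussianReal 0 1).real S' ≤ (gaussianReal 0 1).real S + ε / 4) (d : ℝ) (hd : 0 < d) :
    ∀ᶠ T : ℝ in atTop, ∑ s ∈ (ZI d T).filter (fun s => yn T s ∈ S), W.w s.im ≤
      ((gaussianReal 0 1).real S + ε) * (W.m * (Real.log T / (2 * Real.pi) * T)) := by
  obtain ⟨K, ε', hε', hABU⟩ := hUB
  obtain ⟨δ₂, hδ₂, hM⟩ := W.moments K (ε' * W.m) (by positivity)
  obtain ⟨δ₃, hδ₃, hC⟩ := clz W.y
  obtain ⟨δ, hδ⟩ : ∃ δ, δ = min δ₂ (min δ₃ 1) := ⟨_, rfl⟩
  have hδ0 : 0 < δ := by rw [hδ]; positivity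
  have hδb : δ ≤ δ₂ := by rw [hδ]; exact min_le_left _ _
  have hδc : δ ≤ δ₃ := by rw [hδ]; exact (min_le_right _ _).trans (min_le_left _ _)
  have hδ1 : δ ≤ 1 := by rw [hδ]; exact (min_le_right _ _).trans (min_le_right _ _)
  obtain ⟨C, hC0, hC⟩ := hC δ d hδ0 hδc hd
  have hll : Tendsto (fun T : ℝ => Real.log (Real.log T)) atTop atTop :=
    Real.tendsto_log_atTop.comp Real.tendsto_log_atTop
  have hWM : (0 : ℝ) < W.M := by exact_mod_cast W.hM
  filter_upwards [hM δ hδ0 hδb, hC, ratio_one δ hδ0 hδ1 r hr0 hr1, eventually_ge_atTop (3 : ℝ),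
    hll.eventually_ge_atTop (W.M * C * 64 * Real.pi / (ε * η ^ 2))] with T hM hC ⟨hs1, hs2, hs3, hs4⟩ hT hLL
  set X := ⌊T ^ δ⌋₊ with hX
  set L := Real.log T with hL
  have hL0 : 0 < L := Real.log_pos (by linarith)
  have hT0 : 0 < T := by linarith
  have hpi := Real.pi_pos
  set A := L / (2 * Real.pi) * T with hAd
  have hA0 : 0 < A := by positivity
  set m := W.m with hmd
  have hAm : 0 < A * m := by positivity
  set sT := Real.sqrt (Real.log L / 2) with hsT
  set sX := Real.sqrt (Real.log (Real.log X) / 2) with hsX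
  have hLLpos : 0 < Real.log L := by
    have := Real.sqrt_pos.1 hs1
    linarith
  have hsT2 : sT ^ 2 = Real.log L / 2 := Real.sq_sqrt (by linarith)
  have hmz := mz_ge (T := T) (by linarith)
  have hsub : ZI d T ⊆ H370.Zf riemannZeta T (2 * T) := by
    unfold ZI
    exact Finset.filter_subset _ _
  have hwn : ∀ s : ℂ, 0 ≤ W.w s.im := fun s => W.w_nonneg _
  have hmom := pm_mom (ε' := ε') hA0 hm (fun s => W.R X s.im) (fun s => W.w s.im) hwn hM
  have h1 := hABU _ inferInstance hmom
  rw [pm_real _ _ _ (fun s _ => by have := hwn s; positivity) _ hS'] at h1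
  set F := H370.Zf riemannZeta T (2 * T) with hF
  set G1 := (ZI d T).filter (fun s => W.R X s.im ∈ S') with hG1
  have h2 : ∑ s ∈ G1, W.w s.im ≤ ((gaussianReal 0 1).real S' + ε / 4) * (m * A) := by
    have e1 : (∑ s ∈ G1, W.w s.im) / (A * m) ≤ ∑ s ∈ F.filter (fun s => W.R X s.im ∈ S'), (mz s : ℝ) * W.w s.im / (A * m) := by
      calc (∑ s ∈ G1, W.w s.im) / (A * m) = ∑ s ∈ G1, W.w s.im / (A * m) := by rw [Finset.sum_div]
        _ ≤ ∑ s ∈ G1, (mz s : ℝ) * W.w s.im / (A * m) := by
            refine Finset.sum_le_sum fun s hs => ?_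
            rw [hG1, Finset.mem_filter] at hs
            have h1 := hmz s (hsub hs.1)
            have h2 := hwn s
            rw [div_le_div_iff_of_pos_right hAm]
            nlinarith
        _ ≤ _ := by
            refine Finset.sum_le_sum_of_subset_of_nonneg ?_ fun s _ _ => by have := hwn s; positivity
            intro s hs
            rw [hG1, Finset.mem_filter] at hs
            rw [Finset.mem_filter]
            exact ⟨hsub hs.1, hs.2⟩
    have e2 := e1.trans h1
    rw [div_le_iff₀ hAm] at e2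
    refine e2.trans (le_of_eq (by ring))
  -- the exceptional zeros
  set D : ℂ → ℝ := fun s => Real.log ‖deriv riemannZeta s‖ - Real.log L - (dp X (pca (av W.y) X) s.im).re with hD
  have h3 := cheb (ZI d T) D (η / 2 * sT) (C * (L * T)) (by positivity) hC.1
  set G2 := (ZI d T).filter (fun s => η / 2 * sT < |D s|) with hG2
  have h4 : W.M * (G2.card : ℝ) ≤ ε / 4 * A := by
    have h31 : W.M * (G2.card : ℝ) ≤ (W.M * (C * (L * T))) / (η / 2 * sT) ^ 2 := by
      rw [mul_div_assoc]
      exact mul_le_mul_of_nonneg_left h3 hWM.le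
    refine h31.trans ?_
    rw [div_le_iff₀ (by positivity), mul_pow, hsT2]
    rw [div_le_iff₀ (by positivity)] at hLL
    have e1 : ε / 4 * A * ((η / 2) ^ 2 * (Real.log L / 2)) = (L * T) / (64 * Real.pi) * (Real.log L * (ε * η ^ 2)) := by
      rw [hAd]; field_simp; ring
    rw [e1]
    have e2 : W.M * (C * (L * T)) = (L * T) / (64 * Real.pi) * (W.M * C * 64 * Real.pi) := by field_simp
    rw [e2]
    gcongr
  have h41 : ∑ s ∈ G2, W.w s.im ≤ ε / 4 * (m * A) := by
    calc ∑ s ∈ G2, W.w s.im ≤ ∑ s ∈ G2, (W.M * m) := Finset.sum_le_sum fun s _ => W.w_le _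
      _ = (W.M * (G2.card : ℝ)) * m := by rw [Finset.sum_const, nsmul_eq_mul]; ring
      _ ≤ (ε / 4 * A) * m := mul_le_mul_of_nonneg_right h4 hm.le
      _ = _ := by ring
  have h5 : (ZI d T).filter (fun s => yn T s ∈ S) ⊆ G1 ∪ G2 := by
    intro s hs
    rw [Finset.mem_filter] at hs
    obtain ⟨hs5, hs8⟩ := hs
    by_cases h6 : η / 2 * sT < |D s|
    · refine Finset.mem_union_right _ ?_
      rw [hG2, Finset.mem_filter]
      exact ⟨hs5, h6⟩
    · refine Finset.mem_union_left _ ?_
      push Not at h6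
      rw [hG1, Finset.mem_filter]
      refine ⟨hs5, ?_⟩
      set P := (dp X (pca (av W.y) X) s.im).re with hPd
      have e1 : W.R X s.im = P / sX := rfl
      have e2 : yn T s = W.R X s.im * (sX / sT) + D s / sT := by
        rw [e1]
        show (Real.log ‖deriv riemannZeta s‖ - Real.log L) / sT = _
        have : D s = Real.log ‖deriv riemannZeta s‖ - Real.log L - P := rfl
        rw [this]
        field_simp
        ring
      have e3 : |D s / sT| ≤ η / 2 := by
        rw [abs_div, abs_of_pos hs1, div_le_iff₀ hs1]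
        exact h6
      have e4 : sX / sT ≤ 1 := by rw [div_le_one hs1]; exact hs3
      have e5 : r ≤ sX / sT := by rw [le_div_iff₀ hs1]; exact hs4
      refine hshift (W.R X s.im) (yn T s) (sX / sT) ?_ e5 e4 hs8
      rw [e2, add_sub_cancel_left]
      exact e3
  have h6 : ∑ s ∈ (ZI d T).filter (fun s => yn T s ∈ S), W.w s.im ≤ ∑ s ∈ G1, W.w s.im + ∑ s ∈ G2, W.w s.im := by
    refine (Finset.sum_le_sum_of_subset_of_nonneg h5 fun s _ _ => hwn s).trans ?_
    rw [← Finset.sum_union_inter]
    have : 0 ≤ ∑ s ∈ G1 ∩ G2, W.w s.im := Finset.sum_nonneg fun s _ => hwn s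
    linarith
  set g0 := (gaussianReal 0 1).real S with hg0
  set g1 := (gaussianReal 0 1).real S' with hg1
  have hmA : 0 < m * A := by positivity
  have h9 : (g1 + ε / 4) * (m * A) + ε / 4 * (m * A) ≤ (g0 + ε) * (m * A) := by
    have : (g1 + ε / 4) * (m * A) + ε / 4 * (m * A) = (g1 + ε / 2) * (m * A) := by ring
    rw [this]
    apply mul_le_mul_of_nonneg_right _ hmA.le
    linarith
  linarith

open Classical in
/-- the upper bound, for all intervals, at the isolated zeros -/
theorem wlaw_I_up (W : Wgt) {I : Set ℝ} (hI : I.OrdConnected) (ε : ℝ) (hε : 0 < ε) (d : ℝ) (hd : 0 < d) :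
    ∀ᶠ T : ℝ in atTop, ∑ s ∈ (ZI d T).filter (fun s => yn T s ∈ I), W.w s.im ≤
      ((gaussianReal 0 1).real I + ε) * (W.m * (Real.log T / (2 * Real.pi) * T)) := by
  rcases eq_or_lt_of_le W.m_nonneg with h0 | hm
  · refine Eventually.of_forall fun T => ?_
    rw [← h0]
    simp only [zero_mul, mul_zero]
    rw [Finset.sum_eq_zero fun s _ => W.w_zero h0.symm _]
  have hAB := hABU
  obtain ⟨η, hη⟩ : ∃ η, η = ε / 16 := ⟨_, rfl⟩
  have hη0 : 0 < η := by rw [hη]; positivity
  have hub_univ : UB Set.univ (ε / 4) := by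
    refine ⟨0, ε / 4, by positivity, fun μ hμ hm => ?_⟩
    have g3 := (hm 0 le_rfl).2
    simp only [pow_zero, integral_const, smul_eq_mul, mul_one] at g3
    rw [abs_le] at g3
    linarith [g3.2]
  have hpos : ∀ᶠ T : ℝ in atTop, I = ∅ → ∑ s ∈ (ZI d T).filter (fun s => yn T s ∈ I), W.w s.im ≤
      ((gaussianReal 0 1).real I + ε) * (W.m * (Real.log T / (2 * Real.pi) * T)) := by
    filter_upwards [eventually_ge_atTop (1 : ℝ)] with T hT h
    rw [h]
    have hpi := Real.pi_pos
    have : 0 ≤ Real.log T := Real.log_nonneg hT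
    simp only [Set.mem_empty_iff_false, Finset.filter_false, Finset.sum_empty]
    positivity
  rcases ordc hI with h | h | ⟨a, h1, h2⟩ | ⟨b, h1, h2⟩ | ⟨a, b, h1, h2⟩
  · exact hpos.mono fun T hT => hT h
  · rw [h]
    exact wlaw_upg W hm Set.univ Set.univ MeasurableSet.univ (1 / 2) 1 ε hε one_pos (by norm_num) (by norm_num)
      (fun _ _ _ _ _ _ _ => Set.mem_univ _) hub_univ (by linarith) d hd
  · obtain ⟨r, hr0, hr1, hr⟩ := exists_r (|a| + 3 * η) η (by positivity) hη0
    refine wlaw_upg W hm I (Set.Ioi (a - η - η)) measurableSet_Ioi r η ε hε hη0 hr0 hr1 ?_ (hAB _ _ (by positivity)) ?_ d hd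
    · intro x y ρ g1 g2 g3 g4
      have := h2 g4
      rw [Set.mem_Ici] at this
      rw [Set.mem_Ioi]
      refine shift_low (by linarith) g1 hr0 g2 g3 ?_ hr hη0
      have := abs_sub a η
      rw [abs_of_pos hη0] at this
      linarith
    · have e1 := gam_Ioi (a - η) η hη0.le
      have e2 := gam_Ioi a η hη0.le
      have e3 : (gaussianReal 0 1).real (Set.Ioi a) ≤ (gaussianReal 0 1).real I := measureReal_mono h1
      linarith
  · obtain ⟨r, hr0, hr1, hr⟩ := exists_r (|b| + 3 * η) η (by positivity) hη0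
    refine wlaw_upg W hm I (Set.Iio (b + η + η)) measurableSet_Iio r η ε hε hη0 hr0 hr1 ?_ (ub_Iio hAB _ _ (by positivity)) ?_ d hd
    · intro x y ρ g1 g2 g3 g4
      have := h2 g4
      rw [Set.mem_Iic] at this
      rw [Set.mem_Iio]
      refine shift_up (by linarith) g1 hr0 g2 g3 ?_ hr hη0
      have := abs_add_le b η
      rw [abs_of_pos hη0] at this
      linarith
    · have hsub : Set.Iio (b + η + η) ⊆ Set.Iio b ∪ Set.Icc b (b + 2 * η) := by
        intro x hx
        rcases lt_or_ge x b with h' | h'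
        · exact Or.inl h'
        · exact Or.inr ⟨h', by have := Set.mem_Iio.1 hx; linarith⟩
      have e1 := (measureReal_mono hsub (μ := gaussianReal 0 1)).trans (measureReal_union_le _ _)
      have e2 := gam_Icc_le b (2 * η) (by positivity)
      have e3 : (gaussianReal 0 1).real (Set.Iio b) ≤ (gaussianReal 0 1).real I := measureReal_mono h1
      linarith
  · rcases lt_or_ge b a with hba | hab
    · have hIe : I = ∅ := by
        rw [Set.Icc_eq_empty (not_le.2 hba)] at h2
        exact Set.subset_empty_iff.1 h2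
      exact hpos.mono fun T hT => hT hIe
    obtain ⟨r, hr0, hr1, hr⟩ := exists_r (|a| + |b| + 3 * η) η (by positivity) hη0
    refine wlaw_upg W hm I (Set.Ioo (a - η - η) (b + η + η)) measurableSet_Ioo r η ε hε hη0 hr0 hr1 ?_
      (ub_Ioo hAB _ _ _ (by linarith) (by positivity)) ?_ d hd
    · intro x y ρ g1 g2 g3 g4
      have := h2 g4
      rw [Set.mem_Icc] at this
      have k1 := abs_sub a η
      have k2 := abs_add_le b η
      rw [abs_of_pos hη0] at k1 k2
      have k3 := abs_nonneg a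
      have k4 := abs_nonneg b
      exact ⟨shift_low (by linarith) g1 hr0 g2 g3 (by linarith) hr hη0, shift_up (by linarith) g1 hr0 g2 g3 (by linarith) hr hη0⟩
    · have hsub : Set.Ioo (a - η - η) (b + η + η) ⊆ Set.Ioo a b ∪ (Set.Icc (a - 2 * η) (a - 2 * η + 2 * η) ∪ Set.Icc b (b + 2 * η)) := by
        intro x hx
        rcases lt_or_ge a x with h' | h'
        · rcases lt_or_ge x b with h'' | h''
          · exact Or.inl ⟨h', h''⟩
          · exact Or.inr (Or.inr ⟨h'', by have := hx.2; linarith⟩)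
        · exact Or.inr (Or.inl ⟨by have := hx.1; linarith, by linarith⟩)
      have e1 := (measureReal_mono hsub (μ := gaussianReal 0 1)).trans (measureReal_union_le _ _)
      have e4 := measureReal_union_le (μ := gaussianReal 0 1) (Set.Icc (a - 2 * η) (a - 2 * η + 2 * η)) (Set.Icc b (b + 2 * η))
      have e2 := gam_Icc_le b (2 * η) (by positivity)
      have e5 := gam_Icc_le (a - 2 * η) (2 * η) (by positivity)
      have e3 : (gaussianReal 0 1).real (Set.Ioo a b) ≤ (gaussianReal 0 1).real I := measureReal_mono h1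
      linarith

open Classical in
/-- the upper bound at all simple zeros on the line, for half-lines -/
theorem wlaw_up (W : Wgt) (a ε : ℝ) (hε : 0 < ε) :
    ∀ᶠ T : ℝ in atTop,
    ∑ s ∈ (H370.Zf riemannZeta T (2 * T)).filter (fun s => s.re = 1 / 2 ∧ mz s = 1 ∧ a < yn T s), W.w s.im ≤
      ((gaussianReal 0 1).real (Set.Ioi a) + ε) * (W.m * (Real.log T / (2 * Real.pi) * T)) := by
  rcases eq_or_lt_of_le W.m_nonneg with h0 | hm
  · refine Eventually.of_forall fun T => ?_
    rw [← h0]
    simp only [zero_mul, mul_zero]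
    rw [Finset.sum_eq_zero fun s _ => W.w_zero h0.symm _]
  have hAB := hABU
  obtain ⟨η, hη⟩ : ∃ η, η = ε / 4 := ⟨_, rfl⟩
  have hη0 : 0 < η := by rw [hη]; positivity
  obtain ⟨K, ε', hε', hABU⟩ := hAB (a - η) (ε / 4) (by positivity)
  obtain ⟨δ₂, hδ₂, hM⟩ := W.moments K (ε' * W.m) (by positivity)
  obtain ⟨δ₃, hδ₃, hC⟩ := clz W.y
  obtain ⟨δ, hδ⟩ : ∃ δ, δ = min δ₂ (min δ₃ 1) := ⟨_, rfl⟩
  have hδ0 : 0 < δ := by rw [hδ]; positivity
  have hδb : δ ≤ δ₂ := by rw [hδ]; exact min_le_left _ _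
  have hδc : δ ≤ δ₃ := by rw [hδ]; exact (min_le_right _ _).trans (min_le_left _ _)
  have hδ1 : δ ≤ 1 := by rw [hδ]; exact (min_le_right _ _).trans (min_le_right _ _)
  obtain ⟨C, hC0, hC⟩ := hC δ 1 hδ0 hδc one_pos
  obtain ⟨R, hR⟩ : ∃ R, R = 1 + |a| + η := ⟨_, rfl⟩
  have hR0 : 0 < R := by rw [hR]; positivity
  obtain ⟨r, hr⟩ : ∃ r, r = 1 - min (η / (4 * R)) (1 / 2) := ⟨_, rfl⟩
  have hr0 : 0 < r := by
    rw [hr]
    have := min_le_right (η / (4 * R)) (1 / 2 : ℝ)
    linarith
  have hr1 : r < 1 := by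
    rw [hr]
    have : 0 < min (η / (4 * R)) (1 / 2 : ℝ) := by positivity
    linarith
  have hrR : (1 - r) * R ≤ η / 4 := by
    rw [hr]
    have h1 := min_le_left (η / (4 * R)) (1 / 2 : ℝ)
    calc (1 - (1 - min (η / (4 * R)) (1 / 2))) * R = min (η / (4 * R)) (1 / 2) * R := by ring
      _ ≤ η / (4 * R) * R := by gcongr
      _ = η / 4 := by field_simp
  have hll : Tendsto (fun T : ℝ => Real.log (Real.log T)) atTop atTop :=
    Real.tendsto_log_atTop.comp Real.tendsto_log_atTop
  have hWM : (0 : ℝ) < W.M := by exact_mod_cast W.hM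
  filter_upwards [hM δ hδ0 hδb, hC, ratio_one δ hδ0 hδ1 r hr0 hr1, eventually_ge_atTop (3 : ℝ),
    hll.eventually_ge_atTop (W.M * C * 64 * Real.pi / (ε * η ^ 2))] with T hM hC ⟨hs1, hs2, hs3, hs4⟩ hT hLL
  set X := ⌊T ^ δ⌋₊ with hX
  set L := Real.log T with hL
  have hL0 : 0 < L := Real.log_pos (by linarith)
  have hT0 : 0 < T := by linarith
  have hpi := Real.pi_pos
  set A := L / (2 * Real.pi) * T with hAd
  have hA0 : 0 < A := by positivity
  set m := W.m with hmd
  have hAm : 0 < A * m := by positivity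
  set sT := Real.sqrt (Real.log L / 2) with hsT
  set sX := Real.sqrt (Real.log (Real.log X) / 2) with hsX
  have hLLpos : 0 < Real.log L := by
    have := Real.sqrt_pos.1 hs1
    linarith
  have hsT2 : sT ^ 2 = Real.log L / 2 := Real.sq_sqrt (by linarith)
  have hmz := mz_ge (T := T) (by linarith)
  have hwn : ∀ s : ℂ, 0 ≤ W.w s.im := fun s => W.w_nonneg _
  have hmom := pm_mom (ε' := ε') hA0 hm (fun s => W.R X s.im) (fun s => W.w s.im) hwn hM
  have h1 := hABU _ inferInstance hmom
  rw [pm_real _ _ _ (fun s _ => by have := hwn s; positivity) _ measurableSet_Ioi] at h1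
  set F := H370.Zf riemannZeta T (2 * T) with hF
  set G1 := F.filter (fun s => s.re = 1 / 2 ∧ mz s = 1 ∧ W.R X s.im ∈ Set.Ioi (a - η)) with hG1
  have h2 : ∑ s ∈ G1, W.w s.im ≤ ((gaussianReal 0 1).real (Set.Ioi (a - η)) + ε / 4) * (m * A) := by
    have e1 : (∑ s ∈ G1, W.w s.im) / (A * m) ≤ ∑ s ∈ F.filter (fun s => W.R X s.im ∈ Set.Ioi (a - η)), (mz s : ℝ) * W.w s.im / (A * m) := by
      calc (∑ s ∈ G1, W.w s.im) / (A * m) = ∑ s ∈ G1, W.w s.im / (A * m) := by rw [Finset.sum_div]
        _ ≤ ∑ s ∈ G1, (mz s : ℝ) * W.w s.im / (A * m) := by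
            refine Finset.sum_le_sum fun s hs => ?_
            rw [hG1, Finset.mem_filter] at hs
            have h1 := hmz s hs.1
            have h2 := hwn s
            rw [div_le_div_iff_of_pos_right hAm]
            nlinarith
        _ ≤ _ := by
            refine Finset.sum_le_sum_of_subset_of_nonneg ?_ fun s _ _ => by have := hwn s; positivity
            intro s hs
            rw [hG1, Finset.mem_filter] at hs
            rw [Finset.mem_filter]
            exact ⟨hs.1, hs.2.2.2⟩
    have e2 := e1.trans h1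
    rw [div_le_iff₀ hAm] at e2
    refine e2.trans (le_of_eq (by ring))
  -- the exceptional zeros
  set D : ℂ → ℝ := fun s => max 0 (Real.log ‖deriv riemannZeta s‖ - Real.log L - (dp X (pca (av W.y) X) s.im).re) with hD
  set F1 := F.filter (fun s => s.re = 1 / 2 ∧ mz s = 1) with hF1
  have h3 := cheb F1 D (η / 2 * sT) (C * (L * T)) (by positivity) hC.2
  set G2 := F1.filter (fun s => η / 2 * sT < |D s|) with hG2
  have h4 : W.M * (G2.card : ℝ) ≤ ε / 4 * A := by
    have h31 : W.M * (G2.card : ℝ) ≤ (W.M * (C * (L * T))) / (η / 2 * sT) ^ 2 := by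
      rw [mul_div_assoc]
      exact mul_le_mul_of_nonneg_left h3 hWM.le
    refine h31.trans ?_
    rw [div_le_iff₀ (by positivity), mul_pow, hsT2]
    rw [div_le_iff₀ (by positivity)] at hLL
    have e1 : ε / 4 * A * ((η / 2) ^ 2 * (Real.log L / 2)) = (L * T) / (64 * Real.pi) * (Real.log L * (ε * η ^ 2)) := by
      rw [hAd]; field_simp; ring
    rw [e1]
    have e2 : W.M * (C * (L * T)) = (L * T) / (64 * Real.pi) * (W.M * C * 64 * Real.pi) := by field_simp
    rw [e2]
    gcongr
  have h41 : ∑ s ∈ G2, W.w s.im ≤ ε / 4 * (m * A) := by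
    calc ∑ s ∈ G2, W.w s.im ≤ ∑ s ∈ G2, (W.M * m) := Finset.sum_le_sum fun s _ => W.w_le _
      _ = (W.M * (G2.card : ℝ)) * m := by rw [Finset.sum_const, nsmul_eq_mul]; ring
      _ ≤ (ε / 4 * A) * m := mul_le_mul_of_nonneg_right h4 hm.le
      _ = _ := by ring
  have h5 : F.filter (fun s => s.re = 1 / 2 ∧ mz s = 1 ∧ a < yn T s) ⊆ G1 ∪ G2 := by
    intro s hs
    rw [Finset.mem_filter] at hs
    obtain ⟨hs5, hs6, hs7, hs8⟩ := hs
    by_cases h6 : η / 2 * sT < |D s|
    · refine Finset.mem_union_right _ ?_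
      rw [hG2, Finset.mem_filter, hF1, Finset.mem_filter]
      exact ⟨⟨hs5, hs6, hs7⟩, h6⟩
    · refine Finset.mem_union_left _ ?_
      push Not at h6
      rw [hG1, Finset.mem_filter]
      refine ⟨hs5, hs6, hs7, ?_⟩
      rw [Set.mem_Ioi]
      set P := (dp X (pca (av W.y) X) s.im).re with hPd
      have e1 : W.R X s.im = P / sX := rfl
      have e2 : yn T s ≤ W.R X s.im * (sX / sT) + D s / sT := by
        rw [e1]
        show (Real.log ‖deriv riemannZeta s‖ - Real.log L) / sT ≤ _
        have g1 : Real.log ‖deriv riemannZeta s‖ - Real.log L - P ≤ D s := le_max_right _ _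
        have g2 : P / sX * (sX / sT) = P / sT := by field_simp
        rw [g2, ← add_div]
        gcongr
        linarith
      have e3 : D s / sT ≤ η / 2 := by
        rw [div_le_iff₀ hs1]
        exact (le_abs_self _).trans h6
      have e4 : sX / sT ≤ 1 := by rw [div_le_one hs1]; exact hs3
      have e5 : r ≤ sX / sT := by rw [le_div_iff₀ hs1]; exact hs4
      by_contra hcon
      push Not at hcon
      -- `R ≤ a - η`
      have e6 : W.R X s.im * (sX / sT) ≤ a - η + η / 4 := by
        have g1 : W.R X s.im * (sX / sT) ≤ (a - η) * (sX / sT) := by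
          apply mul_le_mul_of_nonneg_right hcon (by positivity)
        have g2 : (a - η) * (sX / sT) - (a - η) ≤ η / 4 := by
          have : (a - η) * (sX / sT) - (a - η) = (a - η) * (sX / sT - 1) := by ring
          rw [this]
          have g3 : |(a - η) * (sX / sT - 1)| ≤ R * (1 - r) := by
            rw [abs_mul]
            apply mul_le_mul _ _ (abs_nonneg _) hR0.le
            · rw [hR]
              have := abs_sub a η
              rw [abs_of_pos hη0] at this
              linarith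
            · rw [abs_le]; constructor <;> linarith
          have g4 := (le_abs_self _).trans g3
          linarith
        linarith
      linarith
  have h6 : ∑ s ∈ F.filter (fun s => s.re = 1 / 2 ∧ mz s = 1 ∧ a < yn T s), W.w s.im ≤ ∑ s ∈ G1, W.w s.im + ∑ s ∈ G2, W.w s.im := by
    refine (Finset.sum_le_sum_of_subset_of_nonneg h5 fun s _ _ => hwn s).trans ?_
    rw [← Finset.sum_union_inter]
    have : 0 ≤ ∑ s ∈ G1 ∩ G2, W.w s.im := Finset.sum_nonneg fun s _ => hwn s
    linarith
  have h7 := gam_Ioi a η hη0.le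
  set g0 := (gaussianReal 0 1).real (Set.Ioi a) with hg0
  set g1 := (gaussianReal 0 1).real (Set.Ioi (a - η)) with hg1
  have hmA : 0 < m * A := by positivity
  have h9 : (g1 + ε / 4) * (m * A) + ε / 4 * (m * A) ≤ (g0 + ε) * (m * A) := by
    have : (g1 + ε / 4) * (m * A) + ε / 4 * (m * A) = (g1 + ε / 2) * (m * A) := by ring
    rw [this]
    apply mul_le_mul_of_nonneg_right _ hmA.le
    rw [hη] at h7
    linarith
  linarith

end

end Pool.Agent.H4.LD
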