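import Pool.Agent.H4.LD.Tq
import Pool.Agent.H4.LD.Lu

set_option autoImplicit false

/-! The law of the derivative at the zeros in approximation events. -/

open Filter Topology MeasureTheory Complex ProbabilityTheory

namespace Pool.Agent.H4.LD

open Pool.Agent Pool.Agent.Q97.UM Pool.Agent.H4.UZ
open H370 (NN)
open Pool.Agent.X107.UZ (kN aN WN)

noncomputable section

/-- families of sets of ordinates which are approximated by weights -/
def Apw (S : ℝ → Set ℝ) : Prop := ∀ x y, x < y → ∀ ε : ℝ, 0 < ε → ∃ (W : Wgt) (B : Set ℝ), (∀ t, W.w t ≤ 1 + ε) ∧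
  (∀ t ∈ S x, t ∉ B → 1 - ε ≤ W.w t) ∧ (∀ t, t ∉ S y → t ∉ B → W.w t ≤ ε) ∧
  ∀ᶠ T : ℝ in atTop, NE T (2 * T) B ≤ ε * NN riemannZeta T (2 * T)

theorem apw (D : Dat 1) (hD : D.h 0 = 1) : Apw D.S := by
  intro x y hxy ε hε
  obtain ⟨η, hη⟩ : ∃ η, η = (y - x) / 4 := ⟨_, rfl⟩
  have hη0 : 0 < η := by rw [hη]; linarith
  obtain ⟨N, hN⟩ := D.bad_sm hη0 hε
  have hb := (hN N le_rfl).2
  obtain ⟨f, hf01, hf1, hf0⟩ := ury (N := N) (D.K0 0) (D.A 0)
    (mul_lt_mul_of_pos_right (show x + η < y - η by rw [hη]; linarith) (D.he 0))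
  obtain ⟨W, hW⟩ := exists_wgt N f hf01 hε
  have hmem : ∀ z t, t ∈ D.SN N z ↔ TH803TW.torusPt (aN N) t ∈ WN N (D.K 0) (D.A 0) (z * D.e 0) := by
    intro z t
    rw [D.mem_SN, Fin.forall_fin_one, hD, one_mul]
  refine ⟨W, D.Bad N η, fun t => ?_, fun t ht hB => ?_, fun t ht hB => ?_, hb⟩
  · have h1 := (abs_le.1 (hW t)).2
    have h2 := (hf01 (TH803TW.torusPt (aN N) t)).2
    linarith
  · have h1 := (abs_le.1 (hW t)).1
    have h2 : t ∈ D.SN N (x + η) := by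
      rcases D.S_sub N η x ht with h | h
      · exact h
      · exact absurd h hB
    have h3 := hf1 _ ((hmem _ _).1 h2)
    linarith
  · have h1 := (abs_le.1 (hW t)).2
    have h2 : t ∉ D.SN N (y - η) := by
      intro h
      rcases D.SN_sub N η (y - η) h with h3 | h3
      · rw [sub_add_cancel] at h3
        exact ht h3
      · exact hB h3
    have h3 := hf0 _ fun h => h2 ((hmem _ _).2 h)
    linarith

/-- the main term -/
abbrev AA (T : ℝ) : ℝ := Real.log T / (2 * Real.pi) * T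

lemma NN_sum {T : ℝ} (hT : 1 ≤ T) : (NN riemannZeta T (2 * T) : ℝ) = ∑ s ∈ H370.Zf riemannZeta T (2 * T), (mz s : ℝ) := by
  rw [H370.NN_eq H370.good_zeta hT]
  push_cast
  rfl

lemma NN_A {ε : ℝ} (hε : 0 < ε) : ∀ᶠ T : ℝ in atTop, |(NN riemannZeta T (2 * T) : ℝ) - AA T| ≤ ε * AA T := by
  obtain ⟨δ₁, h1, h2⟩ := b_LAWA (Polynomial.X ^ 0) ε hε
  filter_upwards [h2 δ₁ h1 le_rfl, eventually_ge_atTop (3 : ℝ)] with T h3 hT
  simp only [pow_zero, Polynomial.eval_one, mul_one, integral_const, smul_eq_mul] at h3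
  have g4 : (gaussianReal 0 1).real Set.univ = 1 := by simp
  rw [g4, one_mul] at h3
  rw [NN_sum (by linarith)]
  exact h3

lemma Wgt.sum_one (W : Wgt) {ε : ℝ} (hε : 0 < ε) : ∀ᶠ T : ℝ in atTop,
    |(∑ s ∈ H370.Zf riemannZeta T (2 * T), (mz s : ℝ) * W.w s.im) - W.m * AA T| ≤ ε * AA T := by
  obtain ⟨δ₁, h1, h2⟩ := W.all (Polynomial.X ^ 0) ε hε
  filter_upwards [h2 δ₁ h1 le_rfl] with T h3
  simp only [pow_zero, Polynomial.eval_one, mul_one, integral_const, smul_eq_mul] at h3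
  have g4 : (gaussianReal 0 1).real Set.univ = 1 := by simp
  rw [g4, mul_one] at h3
  exact h3

open Classical in
/-- the number of the points with ordinate in a set -/
def cnt (G : Finset ℂ) (E : Set ℝ) : ℝ := ((G.filter (fun s => s.im ∈ E)).card : ℝ)

open Classical in
lemma cnt_eq (G : Finset ℂ) (E : Set ℝ) : cnt G E = ∑ s ∈ G, if s.im ∈ E then (1 : ℝ) else 0 := by
  unfold cnt
  rw [Finset.sum_ite, Finset.sum_const_zero, add_zero, Finset.sum_const, nsmul_eq_mul, mul_one]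

lemma cnt_nonneg (G : Finset ℂ) (E : Set ℝ) : 0 ≤ cnt G E := Nat.cast_nonneg _

lemma cnt_mono {G : Finset ℂ} {E E' : Set ℝ} (h : E ⊆ E') : cnt G E ≤ cnt G E' := by
  classical
  unfold cnt
  have : G.filter (fun s => s.im ∈ E) ⊆ G.filter (fun s => s.im ∈ E') := by
    intro s hs
    rw [Finset.mem_filter] at hs ⊢
    exact ⟨hs.1, h hs.2⟩
  exact_mod_cast Finset.card_le_card this

lemma cnt_le_NE {T : ℝ} (hT : 1 ≤ T) {G : Finset ℂ} (hG : G ⊆ H370.Zf riemannZeta T (2 * T)) (E : Set ℝ) :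
    cnt G E ≤ NE T (2 * T) E := by
  classical
  rw [cnt_eq]
  unfold NE
  rw [Finset.sum_filter]
  refine (Finset.sum_le_sum_of_subset_of_nonneg hG fun s _ _ => by split_ifs <;> norm_num).trans ?_
  refine Finset.sum_le_sum fun s hs => ?_
  have := mz_ge hT s hs
  split_ifs
  · exact this
  · exact le_rfl

lemma wsum_up {G : Finset ℂ} {W : Wgt} {E B : Set ℝ} {ε : ℝ} (h1 : ∀ t, W.w t ≤ 1 + ε)
    (h0 : ∀ t, t ∉ E → t ∉ B → W.w t ≤ ε) : ∑ s ∈ G, W.w s.im ≤ cnt G E + cnt G B + ε * G.card := by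
  classical
  rw [cnt_eq, cnt_eq, ← Finset.sum_add_distrib, mul_comm, ← nsmul_eq_mul, ← Finset.sum_const, ← Finset.sum_add_distrib]
  refine Finset.sum_le_sum fun s _ => ?_
  have g1 := h1 s.im
  have g0 := h0 s.im
  by_cases hE : s.im ∈ E
  · rw [if_pos hE]; split_ifs <;> linarith
  · by_cases hB : s.im ∈ B
    · rw [if_neg hE, if_pos hB]; linarith
    · rw [if_neg hE, if_neg hB]; have := g0 hE hB; linarith

lemma wsum_low {G : Finset ℂ} {W : Wgt} {E B : Set ℝ} {ε : ℝ} (hε : 0 ≤ ε)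
    (h1 : ∀ t ∈ E, t ∉ B → 1 - ε ≤ W.w t) : cnt G E ≤ ∑ s ∈ G, W.w s.im + cnt G B + ε * G.card := by
  classical
  rw [cnt_eq, cnt_eq, ← Finset.sum_add_distrib, mul_comm, ← nsmul_eq_mul, ← Finset.sum_const, ← Finset.sum_add_distrib]
  refine Finset.sum_le_sum fun s _ => ?_
  have g1 := h1 s.im
  have g0 := W.w_nonneg s.im
  by_cases hE : s.im ∈ E
  · by_cases hB : s.im ∈ B
    · rw [if_pos hE, if_pos hB]; linarith
    · rw [if_pos hE, if_neg hB]; have := g1 hE hB; linarith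
  · rw [if_neg hE]; split_ifs <;> linarith

/-- the mean value of the weight against the densities -/
lemma msum_up {W : Wgt} {E B : Set ℝ} {ε T : ℝ} (hT : 1 ≤ T) (h1 : ∀ t, W.w t ≤ 1 + ε)
    (h0 : ∀ t, t ∉ E → t ∉ B → W.w t ≤ ε) : ∑ s ∈ H370.Zf riemannZeta T (2 * T), (mz s : ℝ) * W.w s.im ≤
      NE T (2 * T) E + NE T (2 * T) B + ε * NN riemannZeta T (2 * T) := by
  classical
  rw [NN_sum hT]
  unfold NE
  rw [Finset.sum_filter, Finset.sum_filter, Finset.mul_sum, ← Finset.sum_add_distrib, ← Finset.sum_add_distrib]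
  refine Finset.sum_le_sum fun s _ => ?_
  have g1 := h1 s.im
  have g0 := h0 s.im
  have hm : (0 : ℝ) ≤ mz s := Nat.cast_nonneg _
  change (mz s : ℝ) * W.w s.im ≤ (if s.im ∈ E then (mz s : ℝ) else 0) + (if s.im ∈ B then (mz s : ℝ) else 0) + ε * mz s
  by_cases hE : s.im ∈ E
  · rw [if_pos hE]; split_ifs <;> nlinarith
  · by_cases hB : s.im ∈ B
    · rw [if_neg hE, if_pos hB]; nlinarith
    · rw [if_neg hE, if_neg hB]; have := g0 hE hB; nlinarith

lemma msum_low {W : Wgt} {E B : Set ℝ} {ε T : ℝ} (hT : 1 ≤ T) (hε : 0 ≤ ε)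
    (h1 : ∀ t ∈ E, t ∉ B → 1 - ε ≤ W.w t) : NE T (2 * T) E ≤ ∑ s ∈ H370.Zf riemannZeta T (2 * T), (mz s : ℝ) * W.w s.im +
      NE T (2 * T) B + ε * NN riemannZeta T (2 * T) := by
  classical
  rw [NN_sum hT]
  unfold NE
  rw [Finset.sum_filter, Finset.sum_filter, Finset.mul_sum, ← Finset.sum_add_distrib, ← Finset.sum_add_distrib]
  refine Finset.sum_le_sum fun s _ => ?_
  have g1 := h1 s.im
  have g0 := W.w_nonneg s.im
  have hm : (0 : ℝ) ≤ mz s := Nat.cast_nonneg _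
  change (if s.im ∈ E then (mz s : ℝ) else 0) ≤ (mz s : ℝ) * W.w s.im + (if s.im ∈ B then (mz s : ℝ) else 0) + ε * mz s
  have p1 : 0 ≤ (mz s : ℝ) * W.w s.im := mul_nonneg hm g0
  have p2 : 0 ≤ ε * (mz s : ℝ) := mul_nonneg hε hm
  by_cases hE : s.im ∈ E
  · by_cases hB : s.im ∈ B
    · rw [if_pos hE, if_pos hB]; linarith
    · rw [if_pos hE, if_neg hB]; have := g1 hE hB; nlinarith
  · rw [if_neg hE]; split_ifs <;> linarith

variable {S : ℝ → Set ℝ}

/-- the mean value of the weight is at least the density -/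
lemma m_ge (hS : Apx S) {x y : ℝ} (hxy : x < y) {W : Wgt} {B : Set ℝ} {ε : ℝ} (hε : 0 < ε) (hε1 : ε ≤ 1)
    (h1 : ∀ t ∈ S y, t ∉ B → 1 - ε ≤ W.w t) (hB : ∀ᶠ T : ℝ in atTop, NE T (2 * T) B ≤ ε * NN riemannZeta T (2 * T)) :
    ld (S x) ≤ W.m + 8 * ε := by
  obtain ⟨T, ⟨⟨g1, g2⟩, g3, g4⟩, hT⟩ := ((((apx_all hS hxy hε).2.2.and hB).and ((NN_A hε).and (W.sum_one hε))).and
    (eventually_ge_atTop (3 : ℝ))).exists
  have hL0 : 0 < Real.log T := Real.log_pos (by linarith)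
  have hpi := Real.pi_pos
  have hA0 : 0 < AA T := by unfold AA; positivity
  have g5 := msum_low (T := T) (by linarith) hε.le h1
  rw [abs_le] at g3 g4
  have hl0 := ld_nonneg (S x)
  have hl1 := ld_le_one (S x)
  have hm := W.m_nonneg
  set n : ℝ := (NN riemannZeta T (2 * T) : ℝ)
  set A := AA T
  -- `(ld - ε) n ≤ (m + ε) A + 2 ε n`
  have g6 : ld (S x) * n ≤ (W.m + ε) * A + 3 * ε * n := by linarith [g4.2]
  have g7 : ld (S x) * ((1 - ε) * A) ≤ ld (S x) * n := mul_le_mul_of_nonneg_left (by linarith [g3.1]) hl0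
  have g8 : 3 * ε * n ≤ 3 * ε * (2 * A) := mul_le_mul_of_nonneg_left (by nlinarith [g3.2]) (by positivity)
  have g9 : ld (S x) * A ≤ (W.m + 8 * ε) * A := by nlinarith
  exact le_of_mul_le_mul_right g9 hA0

/-- the mean value of the weight is at most the density -/
lemma m_le (hS : Apx S) {x y : ℝ} (hxy : x < y) {W : Wgt} {B : Set ℝ} {ε : ℝ} (hε : 0 < ε) (hε1 : ε ≤ 1)
    (h1 : ∀ t, W.w t ≤ 1 + ε) (h0 : ∀ t, t ∉ S x → t ∉ B → W.w t ≤ ε)
    (hB : ∀ᶠ T : ℝ in atTop, NE T (2 * T) B ≤ ε * NN riemannZeta T (2 * T)) :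
    W.m ≤ ld (S y) + 8 * ε := by
  obtain ⟨T, ⟨⟨g1, g2⟩, g3, g4⟩, hT⟩ := ((((apx_all hS hxy hε).2.1.and hB).and ((NN_A hε).and (W.sum_one hε))).and
    (eventually_ge_atTop (3 : ℝ))).exists
  have hL0 : 0 < Real.log T := Real.log_pos (by linarith)
  have hpi := Real.pi_pos
  have hA0 : 0 < AA T := by unfold AA; positivity
  have g5 := msum_up (T := T) (by linarith) h1 h0
  rw [abs_le] at g3 g4
  have hl0 := ld_nonneg (S y)
  have hl1 := ld_le_one (S y)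
  have hm := W.m_nonneg
  set n : ℝ := (NN riemannZeta T (2 * T) : ℝ)
  set A := AA T
  have g6 : (W.m - ε) * A ≤ ld (S y) * n + 3 * ε * n := by linarith [g4.1]
  have g7 : ld (S y) * n ≤ ld (S y) * ((1 + ε) * A) := mul_le_mul_of_nonneg_left (by linarith [g3.2]) hl0
  have g8 : 3 * ε * n ≤ 3 * ε * (2 * A) := mul_le_mul_of_nonneg_left (by nlinarith [g3.2]) (by positivity)
  have g9 : W.m * A ≤ (ld (S y) + 8 * ε) * A := by nlinarith
  exact le_of_mul_le_mul_right g9 hA0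

lemma near {x : ℝ} (hc : ContinuousAt (fun y => ld (S y)) x) {ε : ℝ} (hε : 0 < ε) :
    ∃ y z : ℝ, y < x ∧ x < z ∧ ld (S x) - ε ≤ ld (S y) ∧ ld (S z) ≤ ld (S x) + ε := by
  obtain ⟨δ, hδ, h1⟩ := Metric.continuousAt_iff.1 hc ε hε
  refine ⟨x - δ / 2, x + δ / 2, by linarith, by linarith, ?_, ?_⟩
  · have h2 := h1 (x := x - δ / 2) (by rw [Real.dist_eq, sub_sub_cancel_left, abs_neg, abs_of_pos (by linarith)]; linarith)
    rw [Real.dist_eq, abs_lt] at h2
    linarith [h2.1]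
  · have h2 := h1 (x := x + δ / 2) (by rw [Real.dist_eq, add_sub_cancel_left, abs_of_pos (by linarith)]; linarith)
    rw [Real.dist_eq, abs_lt] at h2
    linarith [h2.2]

lemma ZI_sub (d T : ℝ) : ZI d T ⊆ H370.Zf riemannZeta T (2 * T) := by
  classical
  unfold ZI
  exact Finset.filter_subset _ _

open Classical in
/-- the lower bound in an event -/
theorem ev_low (hS : Apx S) (hW : Apw S) {κ : ℝ} {F : ℝ → ℝ → Finset ℂ} (hF : Sel κ F) (hκ0 : 0 ≤ κ) (hκ1 : κ ≤ 1)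
    {x : ℝ} (hc : ContinuousAt (fun y => ld (S y)) x) {I : Set ℝ} (hI : I.OrdConnected) {ε : ℝ} (hε : 0 < ε) :
    ∃ d : ℝ, 0 < d ∧ d ≤ 1 ∧ ∀ᶠ T : ℝ in atTop,
      (κ * (gaussianReal 0 1).real I * ld (S x) - ε) * NN riemannZeta T (2 * T) ≤
        cnt ((F d T).filter (fun s => yn T s ∈ I)) (S x) := by
  obtain ⟨δ, hδ⟩ : ∃ δ, δ = min (1 / 2) (ε / 60) := ⟨_, rfl⟩
  have hδ0 : 0 < δ := by rw [hδ]; positivity
  have hδ1 : δ ≤ 1 / 2 := by rw [hδ]; exact min_le_left _ _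
  have hδ2 : δ ≤ ε / 60 := by rw [hδ]; exact min_le_right _ _
  obtain ⟨y, z, hy, hz, hyl, hzl⟩ := near hc hδ0
  obtain ⟨W, B, h1, h2, h3, h4⟩ := hW ((y + x) / 2) x (by linarith) δ hδ0
  have hm : ld (S y) ≤ W.m + 8 * δ := m_ge hS (show y < (y + x) / 2 by linarith) hδ0 (by linarith) h2 h4
  have hm2 : W.m ≤ ld (S z) + 8 * δ := m_le hS hz hδ0 (by linarith) h1 h3 h4
  obtain ⟨d, hd0, hd1, hd⟩ := wlaw_low hF hκ0 hκ1 W hI δ hδ0
  refine ⟨d, hd0, hd1, ?_⟩
  filter_upwards [hd, h4, NN_A hδ0, eventually_ge_atTop (3 : ℝ)] with T g1 g2 g3 hT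
  have hL0 : 0 < Real.log T := Real.log_pos (by linarith)
  have hpi := Real.pi_pos
  have hA0 : 0 < AA T := by unfold AA; positivity
  have hG : (F d T).filter (fun s => yn T s ∈ I) ⊆ H370.Zf riemannZeta T (2 * T) :=
    (Finset.filter_subset _ _).trans ((hF.sub d T).trans (ZI_sub d T))
  have g4 := wsum_up (G := (F d T).filter (fun s => yn T s ∈ I)) h1 h3
  have g5 := cnt_le_NE (T := T) (by linarith) hG B
  have g6 : (((F d T).filter (fun s => yn T s ∈ I)).card : ℝ) ≤ NN riemannZeta T (2 * T) := by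
    rw [NN_sum (by linarith), ← nsmul_one, ← Finset.sum_const]
    refine (Finset.sum_le_sum_of_subset_of_nonneg hG fun _ _ _ => zero_le_one).trans ?_
    exact Finset.sum_le_sum fun s hs => mz_ge (by linarith) s hs
  rw [abs_le] at g3
  set n : ℝ := (NN riemannZeta T (2 * T) : ℝ)
  change _ * (W.m * AA T) ≤ _ at g1
  set A := AA T
  set g := (gaussianReal 0 1).real I
  have hg0 : 0 ≤ g := measureReal_nonneg
  have hg1 : g ≤ 1 := measureReal_le_one
  have hn0 : 0 ≤ n := Nat.cast_nonneg _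
  have hm0 := W.m_nonneg
  have hl0 := ld_nonneg (S x)
  have hl1 := ld_le_one (S x)
  have hlz := ld_le_one (S z)
  have hκg : κ * g ≤ 1 := by nlinarith
  have hκg0 : 0 ≤ κ * g := by positivity
  have g7 : δ * ((((F d T).filter (fun s => yn T s ∈ I)).card : ℕ) : ℝ) ≤ δ * n := mul_le_mul_of_nonneg_left g6 hδ0.le
  -- `cnt ≥ (κ g - δ) m A - 2 δ n`
  have g8 : (κ * g - δ) * (W.m * A) - 2 * δ * n ≤ cnt ((F d T).filter (fun s => yn T s ∈ I)) (S x) := by linarith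
  refine le_trans ?_ g8
  have hm9 : W.m ≤ 9 := by linarith
  have k2 : κ * g * ld (S x) ≤ κ * g * W.m + 9 * δ := by
    have k1 : κ * g * ld (S x) ≤ κ * g * (W.m + 9 * δ) := mul_le_mul_of_nonneg_left (by linarith) hκg0
    nlinarith
  have hA2 : A ≤ 2 * n := by nlinarith [g3.1]
  have k3 : κ * g * W.m * n ≤ κ * g * W.m * ((1 + δ) * A) := mul_le_mul_of_nonneg_left (by linarith [g3.2]) (by positivity)
  have k4 : κ * g * W.m ≤ 9 := by nlinarith
  have k5 : κ * g * W.m * (δ * A) ≤ 9 * (δ * (2 * n)) :=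
    mul_le_mul k4 (mul_le_mul_of_nonneg_left hA2 hδ0.le) (by positivity) (by norm_num)
  have k6 : δ * (W.m * A) ≤ δ * (9 * (2 * n)) :=
    mul_le_mul_of_nonneg_left (mul_le_mul hm9 hA2 hA0.le (by norm_num)) hδ0.le
  have k7 : κ * g * ld (S x) * n ≤ (κ * g * W.m + 9 * δ) * n := mul_le_mul_of_nonneg_right k2 hn0
  have k8 : δ * n ≤ ε / 60 * n := mul_le_mul_of_nonneg_right hδ2 hn0
  have k9 : (κ * g * ld (S x) - ε) * n = κ * g * ld (S x) * n - ε * n := by ring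
  have k10 : (κ * g - δ) * (W.m * A) = κ * g * W.m * A - δ * (W.m * A) := by ring
  have k11 : κ * g * W.m * ((1 + δ) * A) = κ * g * W.m * A + κ * g * W.m * (δ * A) := by ring
  have k12 : 0 ≤ ε * n := by positivity
  rw [k9, k10]
  rw [k11] at k3
  linarith

lemma card_le_NN {T : ℝ} (hT : 1 ≤ T) {G : Finset ℂ} (hG : G ⊆ H370.Zf riemannZeta T (2 * T)) :
    (G.card : ℝ) ≤ NN riemannZeta T (2 * T) := by
  rw [NN_sum (by linarith), ← nsmul_one, ← Finset.sum_const]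
  refine (Finset.sum_le_sum_of_subset_of_nonneg hG fun _ _ _ => zero_le_one).trans ?_
  exact Finset.sum_le_sum fun s hs => mz_ge (by linarith) s hs

/-- the upper bound in an event, for families of zeros with a weighted upper bound -/
theorem ev_up (hS : Apx S) (hW : Apw S) {G : ℝ → Finset ℂ} (hG : ∀ T, G T ⊆ H370.Zf riemannZeta T (2 * T)) {g : ℝ} (hg0 : 0 ≤ g)
    (hg1 : g ≤ 1) (hup : ∀ (W : Wgt) (ε : ℝ), 0 < ε → ∀ᶠ T : ℝ in atTop, ∑ s ∈ G T, W.w s.im ≤ (g + ε) * (W.m * AA T))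
    {x : ℝ} (hc : ContinuousAt (fun y => ld (S y)) x) {ε : ℝ} (hε : 0 < ε) :
    ∀ᶠ T : ℝ in atTop, cnt (G T) (S x) ≤ (g * ld (S x) + ε) * NN riemannZeta T (2 * T) := by
  obtain ⟨δ, hδ⟩ : ∃ δ, δ = min (1 / 2) (ε / 60) := ⟨_, rfl⟩
  have hδ0 : 0 < δ := by rw [hδ]; positivity
  have hδ1 : δ ≤ 1 / 2 := by rw [hδ]; exact min_le_left _ _
  have hδ2 : δ ≤ ε / 60 := by rw [hδ]; exact min_le_right _ _
  obtain ⟨y, z, hy, hz, hyl, hzl⟩ := near hc hδ0
  obtain ⟨W, B, h1, h2, h3, h4⟩ := hW x ((x + z) / 2) (by linarith) δ hδ0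
  have hm2 : W.m ≤ ld (S z) + 8 * δ := m_le hS (show (x + z) / 2 < z by linarith) hδ0 (by linarith) h1 h3 h4
  filter_upwards [hup W δ hδ0, h4, NN_A hδ0, eventually_ge_atTop (3 : ℝ)] with T g1 g2 g3 hT
  have hL0 : 0 < Real.log T := Real.log_pos (by linarith)
  have hpi := Real.pi_pos
  have hA0 : 0 < AA T := by unfold AA; positivity
  have g4 := wsum_low (G := G T) hδ0.le h2
  have g5 := cnt_le_NE (T := T) (by linarith) (hG T) B
  have g6 := card_le_NN (by linarith) (hG T)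
  rw [abs_le] at g3
  set n : ℝ := (NN riemannZeta T (2 * T) : ℝ)
  set A := AA T
  have hn0 : 0 ≤ n := Nat.cast_nonneg _
  have hm0 := W.m_nonneg
  have hl0 := ld_nonneg (S x)
  have hl1 := ld_le_one (S x)
  have hlz := ld_le_one (S z)
  have g7 : δ * (((G T).card : ℕ) : ℝ) ≤ δ * n := mul_le_mul_of_nonneg_left g6 hδ0.le
  have g8 : cnt (G T) (S x) ≤ (g + δ) * (W.m * A) + 2 * δ * n := by linarith
  refine g8.trans ?_
  have hm9 : W.m ≤ 9 := by linarith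
  have k2 : g * W.m ≤ g * ld (S x) + 9 * δ := by
    have k1 : g * W.m ≤ g * (ld (S x) + 9 * δ) := mul_le_mul_of_nonneg_left (by linarith) hg0
    nlinarith
  have hA2 : A ≤ 2 * n := by nlinarith [g3.1]
  have k3 : g * W.m * A ≤ (g * ld (S x) + 9 * δ) * A := mul_le_mul_of_nonneg_right k2 hA0.le
  have k4 : (g * ld (S x)) * A ≤ (g * ld (S x)) * (n + δ * A) := mul_le_mul_of_nonneg_left (by linarith [g3.1]) (by positivity)
  have k5 : g * ld (S x) * (δ * A) ≤ 1 * (δ * (2 * n)) :=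
    mul_le_mul (by nlinarith) (mul_le_mul_of_nonneg_left hA2 hδ0.le) (by positivity) (by norm_num)
  have k6 : δ * (W.m * A) ≤ δ * (9 * (2 * n)) :=
    mul_le_mul_of_nonneg_left (mul_le_mul hm9 hA2 hA0.le (by norm_num)) hδ0.le
  have k7 : 9 * δ * A ≤ 9 * δ * (2 * n) := mul_le_mul_of_nonneg_left hA2 (by positivity)
  have k8 : δ * n ≤ ε / 60 * n := mul_le_mul_of_nonneg_right hδ2 hn0
  have k10 : (g + δ) * (W.m * A) = g * W.m * A + δ * (W.m * A) := by ring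
  have k12 : 0 ≤ ε * n := by positivity
  rw [k10]
  nlinarith

end

end Pool.Agent.H4.LD
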