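import Pool.Agent.H4.LD.Wd
import Pool.Graph.R_pool_sql_team_seeded_3997aac3.Q97.UM.Base13
import Pool.Graph.R_pool_sql_team_seeded_3997aac3.Q97.UM.Law4

set_option autoImplicit false

/-! Moments of the prime sum at the zeros, with the square of a short Dirichlet polynomial as a weight. -/

open Filter Topology MeasureTheory Complex ProbabilityTheory

namespace Pool.Agent.H4.LD

open Pool.Agent Pool.Agent.Q97.UM
open Pool.Agent.Q96.UM (dp_ext N2_ext)
open Pool.Agent.Q285.UM (va_bd gv int_eval ll_tendsto)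

noncomputable section

/-- the indicator function of the integers above `y` -/
def av (y n : ℕ) : ℂ := if y < n then 1 else 0

lemma av_norm (y n : ℕ) : ‖av y n‖ ≤ 1 := by
  unfold av
  split_ifs <;> simp

/-- data of a weight: a Dirichlet polynomial over the integers composed of primes up to `y` -/
structure Wgt where
  /-- the length -/
  M : ℕ
  /-- the coefficients -/
  c : ℕ → ℂ
  /-- the primes -/
  y : ℕ
  hM : 1 ≤ M
  hc : ∀ n, c n ≠ 0 → 1 ≤ n ∧ n ≤ M ∧ ∀ p : ℕ, p.Prime → p ∣ n → p ≤ y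

/-- the weight -/
def Wgt.w (W : Wgt) (t : ℝ) : ℝ := ‖dp W.M W.c t‖ ^ 2

/-- its mean value -/
def Wgt.m (W : Wgt) : ℝ := N2 W.M W.c

lemma Wgt.w_nonneg (W : Wgt) (t : ℝ) : 0 ≤ W.w t := by unfold Wgt.w; positivity

lemma Wgt.m_nonneg (W : Wgt) : 0 ≤ W.m := Pool.Agent.Q96.UM.N2_nonneg _ _

lemma Wgt.w_le (W : Wgt) (t : ℝ) : W.w t ≤ W.M * W.m := (Pool.Agent.Q84.UM.t_DPM.2.2 W.M W.c t).1

lemma Wgt.cop (W : Wgt) {b : ℕ → ℂ} (hb : Sup (av W.y) b) : ∀ u v, W.c u ≠ 0 → b v ≠ 0 → Nat.Coprime u v := by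
  intro u v hu hv
  obtain ⟨h1, -, h2⟩ := W.hc u hu
  obtain ⟨h3, h4⟩ := hb v hv
  refine Nat.Coprime.symm (Nat.coprime_of_dvd fun p hp hpv hpu => ?_)
  have h5 := h4 p hp hpv
  have h6 := h2 p hp hpu
  unfold av at h5
  rw [if_neg (by omega)] at h5
  exact h5 rfl

/-- the variance tends to one -/
lemma va_one (y : ℕ) : Tendsto (fun X : ℕ => va (av y) X) atTop (𝓝 1) := by
  obtain ⟨C, hC⟩ := Pool.Agent.Helper601.Mertens.mertens_inv
  have hb : ∀ᶠ X : ℕ in atTop, |va (av y) X - 1| ≤ (C + y) / Real.log (Real.log X) := by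
    filter_upwards [ll_tendsto.eventually_gt_atTop 0, eventually_ge_atTop 3] with X h0 h3
    have h1 : N2 X (pca (av y) X) = (∑ p ∈ (Finset.Icc 1 X).filter Nat.Prime, (1 : ℝ) / p) -
        ∑ p ∈ (Finset.Icc 1 X).filter Nat.Prime, (if p ≤ y then (1 : ℝ) / p else 0) := by
      rw [← Finset.sum_sub_distrib]
      unfold N2
      rw [Finset.sum_filter]
      refine Finset.sum_congr rfl fun n hn => ?_
      have hn1 := (Finset.mem_Icc.1 hn).2
      unfold pca av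
      by_cases hp : n.Prime
      · rw [if_pos ⟨hp, hn1⟩, if_pos hp]
        by_cases hy : n ≤ y
        · rw [if_neg (by omega), if_pos hy]; simp
        · rw [if_pos (by omega), if_neg hy]; simp
      · rw [if_neg (fun h => hp h.1), if_neg hp]; simp
    have h2 : 0 ≤ ∑ p ∈ (Finset.Icc 1 X).filter Nat.Prime, (if p ≤ y then (1 : ℝ) / p else 0) :=
      Finset.sum_nonneg fun p _ => by split_ifs <;> positivity
    have h4 : ∑ p ∈ (Finset.Icc 1 X).filter Nat.Prime, (if p ≤ y then (1 : ℝ) / p else 0) ≤ y := by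
      rw [← Finset.sum_filter]
      have h5 : ((Finset.Icc 1 X).filter Nat.Prime).filter (fun p => p ≤ y) ⊆ Finset.Icc 1 y := by
        intro p hp
        rw [Finset.mem_filter, Finset.mem_filter, Finset.mem_Icc] at hp
        rw [Finset.mem_Icc]
        exact ⟨hp.1.1.1, hp.2⟩
      calc ∑ p ∈ ((Finset.Icc 1 X).filter Nat.Prime).filter (fun p => p ≤ y), (1 : ℝ) / p ≤
          ∑ p ∈ Finset.Icc 1 y, (1 : ℝ) / p := Finset.sum_le_sum_of_subset_of_nonneg h5 fun p _ _ => by positivity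
        _ ≤ ∑ p ∈ Finset.Icc 1 y, (1 : ℝ) := by
            refine Finset.sum_le_sum fun p hp => ?_
            have : (1 : ℝ) ≤ p := by exact_mod_cast (Finset.mem_Icc.1 hp).1
            rw [div_le_one (by linarith)]
            exact this
        _ = y := by simp
    have h5 := hC X h3
    have e1 : va (av y) X - 1 = (((∑ p ∈ (Finset.Icc 1 X).filter Nat.Prime, (1 : ℝ) / p) - Real.log (Real.log X)) -
        ∑ p ∈ (Finset.Icc 1 X).filter Nat.Prime, (if p ≤ y then (1 : ℝ) / p else 0)) / Real.log (Real.log X) := by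
      unfold va
      rw [h1]
      field_simp
      ring
    rw [e1, abs_div, abs_of_pos h0]
    refine div_le_div_of_nonneg_right ?_ h0.le
    refine (abs_sub _ _).trans ?_
    rw [abs_of_nonneg h2]
    linarith
  rw [tendsto_iff_norm_sub_tendsto_zero]
  have hz : Tendsto (fun X : ℕ => (C + y) / Real.log (Real.log X)) atTop (𝓝 0) := ll_tendsto.const_div_atTop _
  exact squeeze_zero' (f := fun X : ℕ => ‖va (av y) X - 1‖) (Eventually.of_forall fun _ => norm_nonneg _)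
    (hb.mono fun X h => h) hz

lemma gv_cont (k : ℕ) : Continuous (gv k) := by
  unfold gv
  refine continuous_finsetSum _ fun j _ => ?_
  split_ifs <;> fun_prop

lemma int_tendsto (q : Polynomial ℝ) (y : ℕ) :
    Tendsto (fun X : ℕ => ∫ x, q.eval (Real.sqrt (va (av y) X) * x) ∂(gaussianReal 0 1)) atTop
      (𝓝 (∫ x, q.eval x ∂(gaussianReal 0 1))) := by
  have h1 : ∫ x, q.eval x ∂(gaussianReal 0 1) = ∑ k ∈ Finset.range (q.natDegree + 1), q.coeff k * gv k 1 := by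
    rw [← int_eval q zero_le_one]
    simp
  rw [h1]
  have h2 : Tendsto (fun X : ℕ => ∑ k ∈ Finset.range (q.natDegree + 1), q.coeff k * gv k (va (av y) X)) atTop
      (𝓝 (∑ k ∈ Finset.range (q.natDegree + 1), q.coeff k * gv k 1)) :=
    tendsto_finsetSum _ fun k _ => (((gv_cont k).tendsto 1).comp (va_one y)).const_mul _
  refine h2.congr' ?_
  filter_upwards [va_bd 1] with X hX
  rw [int_eval q (hX (av y) (av_norm y)).1]

/-- the normalised prime sum over the primes above `y` -/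
abbrev Wgt.R (W : Wgt) (X : ℕ) (t : ℝ) : ℝ := RNa (av W.y) X t

/-- weighted polynomials in the prime sum as signed combinations -/
theorem Wgt.wd (W : Wgt) (q : Polynomial ℝ) : ∃ C : ℝ, 0 ≤ C ∧ ∀ ε : ℝ, 0 < ε → ∀ᶠ X : ℕ in atTop,
    ∃ (J : ℕ) (a : Fin J → ℝ) (b : Fin J → ℕ → ℂ), (∀ t : ℝ, WT (W.M * X ^ q.natDegree) a b t = W.w t * q.eval (W.R X t)) ∧
    VW (W.M * X ^ q.natDegree) a b ≤ C ∧
    |MW (W.M * X ^ q.natDegree) a b - W.m * ∫ x, q.eval x ∂(gaussianReal 0 1)| ≤ ε := by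
  obtain ⟨C, hC, h⟩ := wida_sup q 1 zero_le_one
  have hm := W.m_nonneg
  refine ⟨W.m * C, by positivity, fun ε hε => ?_⟩
  have h1 := h (ε / (2 * (W.m + 1))) (by positivity)
  have h2 := (Metric.tendsto_nhds.1 (int_tendsto q W.y)) (ε / (2 * (W.m + 1))) (by positivity)
  filter_upwards [h1, h2] with X h3 h4
  obtain ⟨J, a, b, l1, l2, l3, l4, l5⟩ := h3 _ le_rfl (av W.y) (av_norm W.y)
  have hcz : ∀ n, W.M < n → W.c n = 0 := fun n hn => by
    by_contra hne
    have := (W.hc n hne).2.1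
    omega
  have hN2 : ∀ i, N2 (W.M * X ^ q.natDegree) (cv W.c (b i)) = W.m * N2 (X ^ q.natDegree) (b i) := fun i =>
    N2_cop hcz (l5 i) (W.cop (l4 i))
  refine ⟨J, a, fun i => cv W.c (b i), fun t => ?_, ?_, ?_⟩
  · rw [← l1 t]
    unfold WT Wgt.w
    rw [Finset.mul_sum]
    refine Finset.sum_congr rfl fun i _ => ?_
    rw [← Pool.Agent.Q84.UM.t_DPM.1 W.M (X ^ q.natDegree) W.c (b i) t hcz (l5 i), norm_mul, mul_pow]
    ring
  · have e : VW (W.M * X ^ q.natDegree) a (fun i => cv W.c (b i)) = W.m * VW (X ^ q.natDegree) a b := by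
      unfold VW
      rw [Finset.mul_sum]
      exact Finset.sum_congr rfl fun i _ => by rw [hN2]; ring
    rw [e]
    exact mul_le_mul_of_nonneg_left l2 hm
  · have e : MW (W.M * X ^ q.natDegree) a (fun i => cv W.c (b i)) = W.m * MW (X ^ q.natDegree) a b := by
      unfold MW
      rw [Finset.mul_sum]
      exact Finset.sum_congr rfl fun i _ => by rw [hN2]; ring
    rw [e, ← mul_sub, abs_mul, abs_of_nonneg hm]
    rw [Real.dist_eq] at h4
    have h5 : |MW (X ^ q.natDegree) a b - ∫ x, q.eval x ∂(gaussianReal 0 1)| ≤ ε / (W.m + 1) := by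
      have e2 : MW (X ^ q.natDegree) a b - ∫ x, q.eval x ∂(gaussianReal 0 1) =
          (MW (X ^ q.natDegree) a b - ∫ x, q.eval (Real.sqrt (va (av W.y) X) * x) ∂(gaussianReal 0 1)) +
          ((∫ x, q.eval (Real.sqrt (va (av W.y) X) * x) ∂(gaussianReal 0 1)) - ∫ x, q.eval x ∂(gaussianReal 0 1)) := by ring
      rw [e2]
      refine (abs_add_le _ _).trans ?_
      have e3 : ε / (W.m + 1) = ε / (2 * (W.m + 1)) + ε / (2 * (W.m + 1)) := by field_simp; ring
      linarith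
    calc W.m * |MW (X ^ q.natDegree) a b - ∫ x, q.eval x ∂(gaussianReal 0 1)| ≤ (W.m + 1) * (ε / (W.m + 1)) :=
          mul_le_mul (by linarith) h5 (abs_nonneg _) (by linarith)
      _ = ε := by field_simp

/-- the length of the products -/
lemma Wgt.len (W : Wgt) {θ : ℝ} (hθ : 0 < θ) (D : ℕ) {δ : ℝ} (hδ : 0 < δ) (hδ1 : δ ≤ θ / (2 * (D + 1))) :
    ∀ᶠ T : ℝ in atTop, ((W.M * ⌊T ^ δ⌋₊ ^ D : ℕ) : ℝ) ≤ T ^ θ := by
  have h1 : Tendsto (fun T : ℝ => T ^ (θ / 2)) atTop atTop := tendsto_rpow_atTop (by positivity)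
  filter_upwards [h1.eventually_ge_atTop (W.M : ℝ), eventually_ge_atTop (1 : ℝ)] with T h2 hT
  have h3 := floor_pow_le (T := T) (θ := θ / 2) hT D hδ (by
    refine hδ1.trans (le_of_eq ?_)
    rw [div_div])
  have h4 : ((W.M * ⌊T ^ δ⌋₊ ^ D : ℕ) : ℝ) = W.M * ((⌊T ^ δ⌋₊ ^ D : ℕ) : ℝ) := by push_cast; ring
  rw [h4]
  calc (W.M : ℝ) * ((⌊T ^ δ⌋₊ ^ D : ℕ) : ℝ) ≤ T ^ (θ / 2) * T ^ (θ / 2) :=
        mul_le_mul h2 h3 (by positivity) (by positivity)
    _ = T ^ θ := by rw [← Real.rpow_add (by linarith)]; congr 1; ring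

/-- weighted moments over all the zeros -/
theorem Wgt.all (W : Wgt) (q : Polynomial ℝ) (ε : ℝ) (hε : 0 < ε) : ∃ δ₁ : ℝ, 0 < δ₁ ∧ ∀ δ : ℝ, 0 < δ → δ ≤ δ₁ → ∀ᶠ T : ℝ in atTop,
    |(∑ s ∈ H370.Zf riemannZeta T (2 * T), (mz s : ℝ) * (W.w s.im * q.eval (W.R ⌊T ^ δ⌋₊ s.im))) -
      W.m * (∫ x, q.eval x ∂(gaussianReal 0 1)) * (Real.log T / (2 * Real.pi) * T)| ≤ ε * (Real.log T / (2 * Real.pi) * T) := by
  obtain ⟨C, hC, hW⟩ := W.wd q
  obtain ⟨θ, hθ, hθ1, hS⟩ := b_SAMP (ε / (16 * (C + 1))) (by positivity)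
  refine ⟨θ / (2 * (q.natDegree + 1)), by positivity, fun δ hδ hδ1 => ?_⟩
  have hX : Tendsto (fun T : ℝ => ⌊T ^ δ⌋₊) atTop atTop := tendsto_nat_floor_atTop.comp (tendsto_rpow_atTop hδ)
  have hW2 := hX.eventually (hW (ε / 2) (by positivity))
  filter_upwards [hS, hW2, eventually_ge_atTop 3, W.len hθ q.natDegree hδ hδ1] with T hS hW hT hN
  obtain ⟨J, a, b, h1, h2, h3⟩ := hW
  set X := ⌊T ^ δ⌋₊ with hXd
  set N := W.M * X ^ q.natDegree with hNd
  set L := Real.log T with hL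
  have hL0 : 0 < L := Real.log_pos (by linarith)
  have hpi := Real.pi_pos
  have hpi4 := Real.pi_le_four
  set A := L / (2 * Real.pi) * T with hA
  have hA0 : 0 < A := by positivity
  have e1 : (∑ s ∈ H370.Zf riemannZeta T (2 * T), (mz s : ℝ) * (W.w s.im * q.eval (W.R X s.im))) - A * MW N a b =
      ∑ i, a i * ((∑ s ∈ H370.Zf riemannZeta T (2 * T), (mz s : ℝ) * ‖dp N (b i) s.im‖ ^ 2) -
        L / (2 * Real.pi) * (T * N2 N (b i))) := by
    have h4 : ∀ s ∈ H370.Zf riemannZeta T (2 * T), (mz s : ℝ) * (W.w s.im * q.eval (W.R X s.im)) =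
        ∑ i, a i * ((mz s : ℝ) * ‖dp N (b i) s.im‖ ^ 2) := by
      intro s _
      rw [← h1, WT, Finset.mul_sum]
      exact Finset.sum_congr rfl fun i _ => by ring
    rw [Finset.sum_congr rfl h4, Finset.sum_comm, MW, Finset.mul_sum, ← Finset.sum_sub_distrib]
    refine Finset.sum_congr rfl fun i _ => ?_
    rw [mul_sub, Finset.mul_sum, hA]
    ring
  have e2 : |(∑ s ∈ H370.Zf riemannZeta T (2 * T), (mz s : ℝ) * (W.w s.im * q.eval (W.R X s.im))) - A * MW N a b| ≤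
      ε / (16 * (C + 1)) * L * (T * VW N a b) := by
    rw [e1]
    refine (Finset.abs_sum_le_sum_abs _ _).trans ?_
    rw [VW, Finset.mul_sum, Finset.mul_sum]
    refine Finset.sum_le_sum fun i _ => ?_
    rw [abs_mul]
    have h5 := (hS N hN (b i)).2.2
    calc |a i| * |_| ≤ |a i| * (ε / (16 * (C + 1)) * L * (T * N2 N (b i))) := by gcongr
      _ = _ := by ring
  have e3 : ε / (16 * (C + 1)) * L * (T * VW N a b) ≤ ε / 2 * A := by
    have h5 : ε / (16 * (C + 1)) * C ≤ ε / 16 := by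
      rw [div_mul_eq_mul_div, div_le_div_iff₀ (by positivity) (by norm_num)]
      nlinarith
    have h6 : ε / 16 ≤ ε / 2 * (1 / (2 * Real.pi)) := by
      rw [mul_one_div, le_div_iff₀ (by positivity)]
      nlinarith
    calc ε / (16 * (C + 1)) * L * (T * VW N a b) ≤ ε / (16 * (C + 1)) * L * (T * C) := by gcongr
      _ = (ε / (16 * (C + 1)) * C) * (L * T) := by ring
      _ ≤ (ε / 2 * (1 / (2 * Real.pi))) * (L * T) := by
          apply mul_le_mul_of_nonneg_right (h5.trans h6) (by positivity)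
      _ = ε / 2 * A := by rw [hA]; ring
  have e4 : |A * MW N a b - W.m * (∫ x, q.eval x ∂(gaussianReal 0 1)) * A| ≤ ε / 2 * A := by
    have : A * MW N a b - W.m * (∫ x, q.eval x ∂(gaussianReal 0 1)) * A =
        A * (MW N a b - W.m * ∫ x, q.eval x ∂(gaussianReal 0 1)) := by ring
    rw [this, abs_mul, abs_of_pos hA0, mul_comm]
    exact mul_le_mul_of_nonneg_right h3 hA0.le
  rw [abs_le] at *
  constructor <;> linarith [e2.1, e2.2, e4.1, e4.2]

/-- a selection of isolated zeros with lower bounds relative to nonnegative signed combinations -/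
structure Sel (κ : ℝ) (F : ℝ → ℝ → Finset ℂ) : Prop where
  sub : ∀ d T : ℝ, F d T ⊆ ZI d T
  low : ∀ ε : ℝ, 0 < ε → ∃ d θ : ℝ, 0 < d ∧ d ≤ 1 ∧ 0 < θ ∧ ∀ᶠ T : ℝ in atTop, ∀ N : ℕ,
    (N : ℝ) ≤ T ^ θ → ∀ (J : ℕ) (a : Fin J → ℝ) (b : Fin J → ℕ → ℂ), (∀ t : ℝ, 0 ≤ WT N a b t) →
    Real.log T / (2 * Real.pi) * (T * (κ * MW N a b - ε * VW N a b)) ≤ ∑ s ∈ F d T, WT N a b s.im

theorem sel_ZI : Sel (2 - H370.cMTinv) ZI := by
  refine ⟨fun d T => le_rfl, fun ε hε => ?_⟩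
  obtain ⟨d, θ, h1, h2, h3, -, h4⟩ := b_SAMW ε hε
  exact ⟨d, θ, h1, h2, h3, h4⟩

/-- squares of polynomials over a selection, from below -/
theorem Sel.wsq {κ : ℝ} {F : ℝ → ℝ → Finset ℂ} (hF : Sel κ F) (hκ0 : 0 ≤ κ) (hκ1 : κ ≤ 1) (W : Wgt) (p : Polynomial ℝ) (ε : ℝ) (hε : 0 < ε) :
    ∃ d δ₁ : ℝ, 0 < d ∧ d ≤ 1 ∧ 0 < δ₁ ∧ ∀ δ : ℝ, 0 < δ → δ ≤ δ₁ → ∀ᶠ T : ℝ in atTop,
    (κ * (W.m * ∫ x, p.eval x ^ 2 ∂(gaussianReal 0 1)) - ε) * (Real.log T / (2 * Real.pi) * T) ≤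
      ∑ s ∈ F d T, W.w s.im * p.eval (W.R ⌊T ^ δ⌋₊ s.im) ^ 2 := by
  obtain ⟨C, hC, hW⟩ := W.wd (p ^ 2)
  obtain ⟨d, θ, hd0, hd1, hθ, hS⟩ := hF.low (ε / (4 * (C + 1))) (by positivity)
  refine ⟨d, θ / (2 * ((p ^ 2).natDegree + 1)), hd0, hd1, by positivity, fun δ hδ hδ1 => ?_⟩
  have hX : Tendsto (fun T : ℝ => ⌊T ^ δ⌋₊) atTop atTop := tendsto_nat_floor_atTop.comp (tendsto_rpow_atTop hδ)
  have hW2 := hX.eventually (hW (ε / 2) (by positivity))
  filter_upwards [hS, hW2, eventually_ge_atTop 3, W.len hθ (p ^ 2).natDegree hδ hδ1] with T hS hW hT hN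
  obtain ⟨J, a, b, h1, h2, h3⟩ := hW
  set X := ⌊T ^ δ⌋₊ with hXd
  set N := W.M * X ^ (p ^ 2).natDegree with hNd
  set L := Real.log T with hL
  have hL0 : 0 < L := Real.log_pos (by linarith)
  have hpi := Real.pi_pos
  have h4 := hS N hN J a b (fun t => by
    rw [h1, Polynomial.eval_pow]
    have := W.w_nonneg t
    positivity)
  have h5 : ∑ s ∈ F d T, WT N a b s.im = ∑ s ∈ F d T, W.w s.im * p.eval (W.R X s.im) ^ 2 :=
    Finset.sum_congr rfl fun s _ => by rw [h1, Polynomial.eval_pow]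
  rw [h5] at h4
  refine le_trans ?_ h4
  have h6 : L / (2 * Real.pi) * (T * (κ * MW N a b - ε / (4 * (C + 1)) * VW N a b)) =
      (κ * MW N a b - ε / (4 * (C + 1)) * VW N a b) * (L / (2 * Real.pi) * T) := by ring
  rw [h6]
  apply mul_le_mul_of_nonneg_right _ (by positivity)
  have h7 : ε / (4 * (C + 1)) * VW N a b ≤ ε / 4 := by
    calc ε / (4 * (C + 1)) * VW N a b ≤ ε / (4 * (C + 1)) * C := by gcongr
      _ ≤ ε / 4 := by
        rw [div_mul_eq_mul_div, div_le_div_iff₀ (by positivity) (by norm_num)]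
        nlinarith
  have h8 : ∫ x, (p ^ 2).eval x ∂(gaussianReal 0 1) = ∫ x, p.eval x ^ 2 ∂(gaussianReal 0 1) := by
    simp only [Polynomial.eval_pow]
  rw [h8, abs_le] at h3
  set G := W.m * ∫ x, p.eval x ^ 2 ∂(gaussianReal 0 1) with hG
  nlinarith [h3.1, h3.2]

end

end Pool.Agent.H4.LD
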