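import Pool.Agent.H4.LD.Mo
import Pool.Graph.R_pool_sql_team_seeded_3997aac3.Q97.UM.IsoF
import Pool.Graph.R_pool_sql_team_seeded_3997aac3.Q261.UM.ABS

set_option autoImplicit false

/-! The law of the derivative with the square of a short Dirichlet polynomial as a weight. -/

open Filter Topology MeasureTheory Complex ProbabilityTheory

namespace Pool.Agent.H4.LD

open Pool.Agent Pool.Agent.Q97.UM

noncomputable section

theorem hABS : S_ABS := Pool.Agent.Q261.UM.t_ABS
theorem hABU : S_ABU := Pool.Agent.Q224.UM.t_ABU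

/-- leaving out the primes up to `y` -/
lemma re_diff (y X : ℕ) (t : ℝ) : |(dp X (pc X) t).re - (dp X (pca (av y) X) t).re| ≤ y := by
  have h1 : dp X (pc X) t - dp X (pca (av y) X) t =
      ∑ n ∈ (Finset.Icc 1 X).filter (fun n => n ≤ y), (pc X n) * (n : ℂ) ^ (-(1 / 2 + t * I) : ℂ) := by
    unfold dp
    rw [← Finset.sum_sub_distrib, Finset.sum_filter]
    refine Finset.sum_congr rfl fun n hn => ?_
    have hn1 := (Finset.mem_Icc.1 hn).2
    unfold pc pca av
    by_cases hp : n.Prime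
    · by_cases hy : n ≤ y
      · rw [if_pos ⟨hp, hn1⟩, if_pos ⟨hp, hn1⟩, if_neg (by omega), if_pos hy]; ring
      · rw [if_pos ⟨hp, hn1⟩, if_pos ⟨hp, hn1⟩, if_pos (by omega), if_neg hy]; ring
    · rw [if_neg (fun h => hp h.1), if_neg (fun h => hp h.1)]; simp
  rw [← Complex.sub_re, h1]
  refine (Complex.abs_re_le_norm _).trans ((norm_sum_le _ _).trans ?_)
  have h2 : (Finset.Icc 1 X).filter (fun n => n ≤ y) ⊆ Finset.Icc 1 y := by
    intro p hp
    rw [Finset.mem_filter, Finset.mem_Icc] at hp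
    rw [Finset.mem_Icc]
    exact ⟨hp.1.1, hp.2⟩
  calc ∑ n ∈ (Finset.Icc 1 X).filter (fun n => n ≤ y), ‖(pc X n) * (n : ℂ) ^ (-(1 / 2 + t * I) : ℂ)‖ ≤
      ∑ n ∈ Finset.Icc 1 y, ‖(pc X n) * (n : ℂ) ^ (-(1 / 2 + t * I) : ℂ)‖ :=
        Finset.sum_le_sum_of_subset_of_nonneg h2 fun _ _ _ => norm_nonneg _
    _ ≤ ∑ n ∈ Finset.Icc 1 y, (1 : ℝ) := by
        refine Finset.sum_le_sum fun n hn => ?_
        have hn1 := (Finset.mem_Icc.1 hn).1
        have hn0 : (0 : ℝ) < n := by exact_mod_cast hn1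
        rw [norm_mul]
        have e1 : ‖pc X n‖ ≤ 1 := by unfold pc; split_ifs <;> simp
        have e2 : ‖(n : ℂ) ^ (-(1 / 2 + t * I) : ℂ)‖ ≤ 1 := by
          have : ((n : ℝ) : ℂ) = (n : ℂ) := by norm_cast
          rw [← this, Complex.norm_cpow_eq_rpow_re_of_pos hn0]
          have e3 : (-(1 / 2 + t * I) : ℂ).re = -(1 / 2) := by simp
          rw [e3]
          apply Real.rpow_le_one_of_one_le_of_nonpos
          · exact_mod_cast hn1
          · norm_num
        calc ‖pc X n‖ * ‖(n : ℂ) ^ (-(1 / 2 + t * I) : ℂ)‖ ≤ 1 * 1 := by gcongr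
          _ = 1 := by ring
    _ = y := by simp

open Classical in
/-- the number of simple zeros on the line -/
lemma simple_card_le : ∀ᶠ T : ℝ in atTop, (((H370.Zf riemannZeta T (2 * T)).filter (fun s => s.re = 1 / 2 ∧ mz s = 1)).card : ℝ) ≤
    2 * (Real.log T / (2 * Real.pi) * T) := by
  obtain ⟨δ₁, h1, h2⟩ := b_LAWA (Polynomial.X ^ 0) 1 one_pos
  filter_upwards [h2 δ₁ h1 le_rfl, eventually_ge_atTop (3 : ℝ)] with T h3 hT
  simp only [pow_zero, Polynomial.eval_one, mul_one, integral_const, smul_eq_mul] at h3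
  have g4 : (gaussianReal 0 1).real Set.univ = 1 := by simp
  rw [g4, one_mul, abs_le] at h3
  have hmz := mz_ge (T := T) (by linarith)
  have h4 : (((H370.Zf riemannZeta T (2 * T)).filter (fun s => s.re = 1 / 2 ∧ mz s = 1)).card : ℝ) ≤
      ∑ s ∈ H370.Zf riemannZeta T (2 * T), (mz s : ℝ) := by
    have h5 : (((H370.Zf riemannZeta T (2 * T)).filter (fun s => s.re = 1 / 2 ∧ mz s = 1)).card : ℝ) ≤
        ((H370.Zf riemannZeta T (2 * T)).card : ℝ) := by
      exact_mod_cast Finset.card_le_card (Finset.filter_subset _ _)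
    refine h5.trans ?_
    rw [← nsmul_one, ← Finset.sum_const]
    exact Finset.sum_le_sum fun s hs => hmz s hs
  linarith [h3.2]

open Classical in
/-- `log |ζ'|` against the sum over the primes above `y` -/
theorem clz (y : ℕ) : ∃ δ₂ : ℝ, 0 < δ₂ ∧ ∀ δ d : ℝ, 0 < δ → δ ≤ δ₂ → 0 < d → ∃ C : ℝ, 0 ≤ C ∧ ∀ᶠ T : ℝ in atTop,
    ∑ s ∈ ZI d T, (Real.log ‖deriv riemannZeta s‖ - Real.log (Real.log T) - (dp ⌊T ^ δ⌋₊ (pca (av y) ⌊T ^ δ⌋₊) s.im).re) ^ 2 ≤ C * (Real.log T * T) ∧
    ∑ s ∈ (H370.Zf riemannZeta T (2 * T)).filter (fun s => s.re = 1 / 2 ∧ mz s = 1),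
      (max 0 (Real.log ‖deriv riemannZeta s‖ - Real.log (Real.log T) - (dp ⌊T ^ δ⌋₊ (pca (av y) ⌊T ^ δ⌋₊) s.im).re)) ^ 2 ≤ C * (Real.log T * T) := by
  obtain ⟨δ₂, h1, h2⟩ := b_CLZ
  refine ⟨δ₂, h1, fun δ d hδ hδ2 hd => ?_⟩
  obtain ⟨C, hC, h3⟩ := h2 δ d hδ hδ2 hd
  refine ⟨2 * C + 2 * y ^ 2, by positivity, ?_⟩
  filter_upwards [h3, ZI_card_le, simple_card_le, eventually_ge_atTop (3 : ℝ)] with T ⟨h4, h5⟩ h6 h7 hT
  have hpi := Real.pi_gt_three
  have hL0 : 0 < Real.log T := Real.log_pos (by linarith)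
  set X := ⌊T ^ δ⌋₊ with hX
  have hA : 2 * (Real.log T / (2 * Real.pi) * T) ≤ Real.log T * T := by
    have e1 : 2 * (Real.log T / (2 * Real.pi) * T) = (Real.log T * T) / Real.pi := by field_simp
    rw [e1, div_le_iff₀ (by positivity)]
    nlinarith [mul_pos hL0 (show 0 < T by linarith)]
  have hd := re_diff y X
  constructor
  · calc ∑ s ∈ ZI d T, (Real.log ‖deriv riemannZeta s‖ - Real.log (Real.log T) - (dp X (pca (av y) X) s.im).re) ^ 2 ≤
        ∑ s ∈ ZI d T, (2 * (Real.log ‖deriv riemannZeta s‖ - Real.log (Real.log T) - (dp X (pc X) s.im).re) ^ 2 + 2 * (y : ℝ) ^ 2) := by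
          refine Finset.sum_le_sum fun s _ => ?_
          have h8 := hd s.im
          have h9 : ((dp X (pc X) s.im).re - (dp X (pca (av y) X) s.im).re) ^ 2 ≤ (y : ℝ) ^ 2 := by
            rw [← sq_abs ((dp X (pc X) s.im).re - (dp X (pca (av y) X) s.im).re)]
            gcongr
          nlinarith [sq_nonneg ((Real.log ‖deriv riemannZeta s‖ - Real.log (Real.log T) - (dp X (pc X) s.im).re) -
            ((dp X (pc X) s.im).re - (dp X (pca (av y) X) s.im).re))]
      _ = 2 * ∑ s ∈ ZI d T, (Real.log ‖deriv riemannZeta s‖ - Real.log (Real.log T) - (dp X (pc X) s.im).re) ^ 2 +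
          (ZI d T).card * (2 * (y : ℝ) ^ 2) := by
          rw [Finset.sum_add_distrib, ← Finset.mul_sum, Finset.sum_const, nsmul_eq_mul]
      _ ≤ 2 * (C * (Real.log T * T)) + (Real.log T * T) * (2 * (y : ℝ) ^ 2) := by
          have := (h6 d).trans hA
          gcongr
      _ = (2 * C + 2 * y ^ 2) * (Real.log T * T) := by ring
  · calc ∑ s ∈ (H370.Zf riemannZeta T (2 * T)).filter (fun s => s.re = 1 / 2 ∧ mz s = 1),
        (max 0 (Real.log ‖deriv riemannZeta s‖ - Real.log (Real.log T) - (dp X (pca (av y) X) s.im).re)) ^ 2 ≤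
        ∑ s ∈ (H370.Zf riemannZeta T (2 * T)).filter (fun s => s.re = 1 / 2 ∧ mz s = 1),
          (2 * (max 0 (Real.log ‖deriv riemannZeta s‖ - Real.log (Real.log T) - (dp X (pc X) s.im).re)) ^ 2 + 2 * (y : ℝ) ^ 2) := by
          refine Finset.sum_le_sum fun s _ => ?_
          have h8 := hd s.im
          rw [abs_le] at h8
          set D := Real.log ‖deriv riemannZeta s‖ - Real.log (Real.log T)
          have h9 : max 0 (D - (dp X (pca (av y) X) s.im).re) ≤ max 0 (D - (dp X (pc X) s.im).re) + y := by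
            apply max_le
            · have := le_max_left 0 (D - (dp X (pc X) s.im).re)
              positivity
            · have := le_max_right 0 (D - (dp X (pc X) s.im).re)
              linarith [h8.2]
          have h10 : 0 ≤ max 0 (D - (dp X (pca (av y) X) s.im).re) := le_max_left _ _
          have h11 : (max 0 (D - (dp X (pca (av y) X) s.im).re)) ^ 2 ≤ (max 0 (D - (dp X (pc X) s.im).re) + y) ^ 2 := by gcongr
          nlinarith [sq_nonneg (max 0 (D - (dp X (pc X) s.im).re) - y)]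
      _ = 2 * ∑ s ∈ (H370.Zf riemannZeta T (2 * T)).filter (fun s => s.re = 1 / 2 ∧ mz s = 1),
            (max 0 (Real.log ‖deriv riemannZeta s‖ - Real.log (Real.log T) - (dp X (pc X) s.im).re)) ^ 2 +
          ((H370.Zf riemannZeta T (2 * T)).filter (fun s => s.re = 1 / 2 ∧ mz s = 1)).card * (2 * (y : ℝ) ^ 2) := by
          rw [Finset.sum_add_distrib, ← Finset.mul_sum, Finset.sum_const, nsmul_eq_mul]
      _ ≤ 2 * (C * (Real.log T * T)) + (Real.log T * T) * (2 * (y : ℝ) ^ 2) := by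
          have := h7.trans hA
          gcongr
      _ = (2 * C + 2 * y ^ 2) * (Real.log T * T) := by ring

/-- simultaneous choice of `δ` for finitely many weighted moments -/
theorem Wgt.moments (W : Wgt) (K : ℕ) (ε' : ℝ) (hε : 0 < ε') : ∃ δ₁ : ℝ, 0 < δ₁ ∧ ∀ δ : ℝ, 0 < δ → δ ≤ δ₁ → ∀ᶠ T : ℝ in atTop,
    ∀ k : ℕ, k ≤ K → |(∑ s ∈ H370.Zf riemannZeta T (2 * T), (mz s : ℝ) * (W.w s.im * W.R ⌊T ^ δ⌋₊ s.im ^ k)) -
      W.m * (∫ x, x ^ k ∂(gaussianReal 0 1)) * (Real.log T / (2 * Real.pi) * T)| ≤ ε' * (Real.log T / (2 * Real.pi) * T) := by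
  induction K with
  | zero =>
    obtain ⟨δ₁, h1, h2⟩ := W.all (Polynomial.X ^ 0) ε' hε
    refine ⟨δ₁, h1, fun δ hδ hδ1 => ?_⟩
    filter_upwards [h2 δ hδ hδ1] with T h k hk
    have : k = 0 := by omega
    subst this
    simpa using h
  | succ K ih =>
    obtain ⟨δ₁, h1, h2⟩ := W.all (Polynomial.X ^ (K + 1)) ε' hε
    obtain ⟨δ₂, h3, h4⟩ := ih
    refine ⟨min δ₁ δ₂, by positivity, fun δ hδ hδ1 => ?_⟩
    filter_upwards [h2 δ hδ (hδ1.trans (min_le_left _ _)), h4 δ hδ (hδ1.trans (min_le_right _ _))] with T h h' k hk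
    rcases Nat.lt_or_ge K k with h5 | h5
    · have : k = K + 1 := by omega
      subst this
      simpa using h
    · exact h' k h5

/-- the weighted measure of the normalised prime sum over all zeros has nearly Gaussian moments -/
theorem pm_mom {T A ε' m : ℝ} {K : ℕ} (hA : 0 < A) (hm : 0 < m) (x w : ℂ → ℝ) (hw : ∀ s, 0 ≤ w s)
    (h : ∀ k : ℕ, k ≤ K → |(∑ s ∈ H370.Zf riemannZeta T (2 * T), (mz s : ℝ) * (w s * x s ^ k)) -
      m * (∫ x, x ^ k ∂(gaussianReal 0 1)) * A| ≤ ε' * m * A) :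
    ∀ k : ℕ, k ≤ K → Integrable (fun y : ℝ => y ^ k) (pm (H370.Zf riemannZeta T (2 * T)) (fun s => (mz s : ℝ) * w s / (A * m)) x) ∧
      |(∫ y, y ^ k ∂(pm (H370.Zf riemannZeta T (2 * T)) (fun s => (mz s : ℝ) * w s / (A * m)) x)) - ∫ x, x ^ k ∂(gaussianReal 0 1)| ≤ ε' := by
  intro k hk
  refine ⟨pm_int _ _ _ _, ?_⟩
  rw [pm_integral _ _ _ (fun s _ => by have := hw s; positivity)]
  have h1 := h k hk
  have e1 : (∑ s ∈ H370.Zf riemannZeta T (2 * T), (mz s : ℝ) * w s / (A * m) * x s ^ k) - ∫ x, x ^ k ∂(gaussianReal 0 1) =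
      ((∑ s ∈ H370.Zf riemannZeta T (2 * T), (mz s : ℝ) * (w s * x s ^ k)) - m * (∫ x, x ^ k ∂(gaussianReal 0 1)) * A) / (A * m) := by
    rw [sub_div, Finset.sum_div]
    congr 1
    · exact Finset.sum_congr rfl fun s _ => by ring
    · field_simp
  rw [e1, abs_div, abs_of_pos (mul_pos hA hm), div_le_iff₀ (mul_pos hA hm)]
  refine h1.trans (le_of_eq (by ring))

open Classical in
/-- the lower bound, for open intervals -/
theorem wlaw_iso {κ : ℝ} {F : ℝ → ℝ → Finset ℂ} (hF : Sel κ F) (hκ0 : 0 ≤ κ) (hκ1 : κ ≤ 1) (W : Wgt) (hm : 0 < W.m)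
    (a b ε : ℝ) (hab : a < b) (hε : 0 < ε) :
    ∃ d : ℝ, 0 < d ∧ d ≤ 1 ∧ ∀ᶠ T : ℝ in atTop,
    (κ * (gaussianReal 0 1).real (Set.Ioo a b) - ε) * (W.m * (Real.log T / (2 * Real.pi) * T)) ≤
    ∑ s ∈ (F d T).filter (fun s => a < yn T s ∧ yn T s < b), W.w s.im := by
  obtain ⟨η, hη⟩ : ∃ η, η = min (ε / 16) ((b - a) / 4) := ⟨_, rfl⟩
  have hη0 : 0 < η := by
    rw [hη]
    have : 0 < b - a := by linarith
    positivity
  have hη1 : η ≤ ε / 16 := by rw [hη]; exact min_le_left _ _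
  have hη2 : η ≤ (b - a) / 4 := by rw [hη]; exact min_le_right _ _
  obtain ⟨K, p, ε', hε', hK, hABS⟩ := hABS (a + η) (b - η) (ε / 4) (by linarith) (by positivity)
  obtain ⟨d, δ₁, hd0, hd1, hδ₁, hP⟩ := hF.wsq hκ0 hκ1 W p (ε' * W.m) (by positivity)
  obtain ⟨δ₂, hδ₂, hM⟩ := W.moments K (ε' * W.m) (by positivity)
  obtain ⟨δ₃, hδ₃, hC⟩ := clz W.y
  obtain ⟨δ, hδ⟩ : ∃ δ, δ = min (min δ₁ δ₂) (min δ₃ 1) := ⟨_, rfl⟩
  have hδ0 : 0 < δ := by rw [hδ]; positivity
  have hδa : δ ≤ δ₁ := by rw [hδ]; exact (min_le_left _ _).trans (min_le_left _ _)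
  have hδb : δ ≤ δ₂ := by rw [hδ]; exact (min_le_left _ _).trans (min_le_right _ _)
  have hδc : δ ≤ δ₃ := by rw [hδ]; exact (min_le_right _ _).trans (min_le_left _ _)
  have hδ1 : δ ≤ 1 := by rw [hδ]; exact (min_le_right _ _).trans (min_le_right _ _)
  obtain ⟨C, hC0, hC⟩ := hC δ d hδ0 hδc hd0
  refine ⟨d, hd0, hd1, ?_⟩
  obtain ⟨R, hR⟩ : ∃ R, R = 1 + |a| + |b| := ⟨_, rfl⟩
  have hR0 : 0 < R := by rw [hR]; positivity
  obtain ⟨r, hr⟩ : ∃ r, r = 1 - min (η / (4 * R)) (1 / 2) := ⟨_, rfl⟩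
  have hr0 : 0 < r := by
    rw [hr]
    have := min_le_right (η / (4 * R)) (1 / 2 : ℝ)
    linarith
  have hr1 : r < 1 := by
    rw [hr]
    have : 0 < min (η / (4 * R)) (1 / 2 : ℝ) := by positivity
    linarith
  have hrR : (1 - r) * R ≤ η / 4 := by
    rw [hr]
    have h1 := min_le_left (η / (4 * R)) (1 / 2 : ℝ)
    calc (1 - (1 - min (η / (4 * R)) (1 / 2))) * R = min (η / (4 * R)) (1 / 2) * R := by ring
      _ ≤ η / (4 * R) * R := by gcongr
      _ = η / 4 := by field_simp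
  have hll : Tendsto (fun T : ℝ => Real.log (Real.log T)) atTop atTop :=
    Real.tendsto_log_atTop.comp Real.tendsto_log_atTop
  have hWM : (0 : ℝ) < W.M := by exact_mod_cast W.hM
  filter_upwards [hP δ hδ0 hδa, hM δ hδ0 hδb, hC, ratio_one δ hδ0 hδ1 r hr0 hr1, eventually_ge_atTop (3 : ℝ),
    hll.eventually_ge_atTop (W.M * C * 64 * Real.pi / (ε * η ^ 2))] with T hP hM hC ⟨hs1, hs2, hs3, hs4⟩ hT hLL
  set X := ⌊T ^ δ⌋₊ with hX
  set L := Real.log T with hL
  have hL0 : 0 < L := Real.log_pos (by linarith)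
  have hT0 : 0 < T := by linarith
  have hpi := Real.pi_pos
  set A := L / (2 * Real.pi) * T with hAd
  have hA0 : 0 < A := by positivity
  set m := W.m with hmd
  have hAm : 0 < A * m := by positivity
  set sT := Real.sqrt (Real.log L / 2) with hsT
  set sX := Real.sqrt (Real.log (Real.log X) / 2) with hsX
  have hLLpos : 0 < Real.log L := by
    have := Real.sqrt_pos.1 hs1
    linarith
  have hsT2 : sT ^ 2 = Real.log L / 2 := Real.sq_sqrt (by linarith)
  -- the two measures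
  have hmz := mz_ge (T := T) (by linarith)
  have hsub : F d T ⊆ H370.Zf riemannZeta T (2 * T) := by
    refine (hF.sub d T).trans ?_
    unfold ZI
    exact Finset.filter_subset _ _
  have hwn : ∀ s : ℂ, 0 ≤ W.w s.im := fun s => W.w_nonneg _
  have hmom := pm_mom (ε' := ε') hA0 hm (fun s => W.R X s.im) (fun s => W.w s.im) hwn hM
  have hle : pm (F d T) (fun s => W.w s.im / (A * m)) (fun s => W.R X s.im) ≤
      pm (H370.Zf riemannZeta T (2 * T)) (fun s => (mz s : ℝ) * W.w s.im / (A * m)) (fun s => W.R X s.im) := by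
    refine pm_le hsub _ _ _ fun s hs => ?_
    have h1 := hmz s (hsub hs)
    have h2 := hwn s
    rw [div_le_div_iff_of_pos_right hAm]
    nlinarith
  have h1 := hABS κ hκ0 hκ1 _ _ inferInstance hle hmom (by
    rw [pm_integral _ _ _ (fun s _ => by have := hwn s; positivity)]
    have e1 : ∑ s ∈ F d T, W.w s.im / (A * m) * p.eval (W.R X s.im) ^ 2 =
        (∑ s ∈ F d T, W.w s.im * p.eval (W.R X s.im) ^ 2) / (A * m) := by
      rw [Finset.sum_div]
      exact Finset.sum_congr rfl fun s _ => by ring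
    rw [e1, le_div_iff₀ hAm]
    refine le_trans (le_of_eq ?_) hP
    ring)
  rw [pm_real _ _ _ (fun s _ => by have := hwn s; positivity) _ measurableSet_Ioo, ← Finset.sum_div] at h1
  set G1 := (F d T).filter (fun s => W.R X s.im ∈ Set.Ioo (a + η) (b - η)) with hG1
  have h2 : (κ * (gaussianReal 0 1).real (Set.Ioo (a + η) (b - η)) - ε / 4) * (m * A) ≤ ∑ s ∈ G1, W.w s.im := by
    rw [le_div_iff₀ hAm] at h1
    refine le_trans (le_of_eq (by ring)) (h1.trans (le_of_eq ?_))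
    rw [hG1]
    congr!
  -- the exceptional zeros
  set D : ℂ → ℝ := fun s => Real.log ‖deriv riemannZeta s‖ - Real.log L - (dp X (pca (av W.y) X) s.im).re with hD
  have h3 := cheb (ZI d T) D (η / 2 * sT) (C * (L * T)) (by positivity) hC.1
  set G2 := (ZI d T).filter (fun s => η / 2 * sT < |D s|) with hG2
  have h4 : W.M * (G2.card : ℝ) ≤ ε / 4 * A := by
    have h31 : W.M * (G2.card : ℝ) ≤ (W.M * (C * (L * T))) / (η / 2 * sT) ^ 2 := by
      rw [mul_div_assoc]
      exact mul_le_mul_of_nonneg_left h3 hWM.le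
    refine h31.trans ?_
    rw [div_le_iff₀ (by positivity), mul_pow, hsT2]
    rw [div_le_iff₀ (by positivity)] at hLL
    have e1 : ε / 4 * A * ((η / 2) ^ 2 * (Real.log L / 2)) = (L * T) / (64 * Real.pi) * (Real.log L * (ε * η ^ 2)) := by
      rw [hAd]; field_simp; ring
    rw [e1]
    have e2 : W.M * (C * (L * T)) = (L * T) / (64 * Real.pi) * (W.M * C * 64 * Real.pi) := by field_simp
    rw [e2]
    gcongr
  have h41 : ∑ s ∈ G2, W.w s.im ≤ ε / 4 * (m * A) := by
    calc ∑ s ∈ G2, W.w s.im ≤ ∑ s ∈ G2, (W.M * m) := Finset.sum_le_sum fun s _ => W.w_le _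
      _ = (W.M * (G2.card : ℝ)) * m := by rw [Finset.sum_const, nsmul_eq_mul]; ring
      _ ≤ (ε / 4 * A) * m := mul_le_mul_of_nonneg_right h4 hm.le
      _ = _ := by ring
  -- the good zeros
  have h5 : G1 ⊆ ((F d T).filter (fun s => a < yn T s ∧ yn T s < b)) ∪ G2 := by
    intro s hs
    rw [hG1, Finset.mem_filter] at hs
    obtain ⟨hs5, hs6⟩ := hs
    by_cases h6 : η / 2 * sT < |D s|
    · refine Finset.mem_union_right _ ?_
      rw [hG2, Finset.mem_filter]
      exact ⟨hF.sub d T hs5, h6⟩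
    · refine Finset.mem_union_left _ ?_
      push Not at h6
      rw [Finset.mem_filter]
      refine ⟨hs5, ?_⟩
      set P := (dp X (pca (av W.y) X) s.im).re with hPd
      have e1 : W.R X s.im = P / sX := rfl
      have e2 : yn T s = W.R X s.im * (sX / sT) + D s / sT := by
        rw [e1]
        show (Real.log ‖deriv riemannZeta s‖ - Real.log L) / sT = _
        have : D s = Real.log ‖deriv riemannZeta s‖ - Real.log L - P := rfl
        rw [this]
        field_simp
        ring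
      have e3 : |D s / sT| ≤ η / 2 := by
        rw [abs_div, abs_of_pos hs1, div_le_iff₀ hs1]
        exact h6
      have e4 : sX / sT ≤ 1 := by rw [div_le_one hs1]; exact hs3
      have e5 : r ≤ sX / sT := by rw [le_div_iff₀ hs1]; exact hs4
      have e6 : |W.R X s.im| ≤ R := by
        rw [hR, abs_le]
        have g1 := hs6.1
        have g2 := hs6.2
        have g3 := neg_abs_le a
        have g4 := le_abs_self b
        have g5 := abs_nonneg a
        have g6 := abs_nonneg b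
        constructor <;> linarith
      have e7 : |W.R X s.im * (sX / sT) - W.R X s.im| ≤ η / 4 := by
        have : W.R X s.im * (sX / sT) - W.R X s.im = W.R X s.im * (sX / sT - 1) := by ring
        rw [this, abs_mul]
        have g1 : |sX / sT - 1| ≤ 1 - r := by
          rw [abs_le]; constructor <;> linarith
        calc |W.R X s.im| * |sX / sT - 1| ≤ R * (1 - r) := mul_le_mul e6 g1 (abs_nonneg _) hR0.le
          _ = (1 - r) * R := by ring
          _ ≤ η / 4 := hrR
      have e8 : |yn T s - W.R X s.im| ≤ 3 * η / 4 := by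
        have : yn T s - W.R X s.im = (W.R X s.im * (sX / sT) - W.R X s.im) + D s / sT := by rw [e2]; ring
        rw [this]
        refine (abs_add_le _ _).trans ?_
        linarith
      rw [abs_le] at e8
      have g1 := hs6.1
      have g2 := hs6.2
      constructor <;> linarith [e8.1, e8.2]
  have h6 : ∑ s ∈ G1, W.w s.im ≤ ∑ s ∈ (F d T).filter (fun s => a < yn T s ∧ yn T s < b), W.w s.im + ∑ s ∈ G2, W.w s.im := by
    refine (Finset.sum_le_sum_of_subset_of_nonneg h5 fun s _ _ => hwn s).trans ?_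
    rw [← Finset.sum_union_inter]
    have : 0 ≤ ∑ s ∈ ((F d T).filter (fun s => a < yn T s ∧ yn T s < b)) ∩ G2, W.w s.im := Finset.sum_nonneg fun s _ => hwn s
    linarith
  have h7 := gam_Ioo a b η hη0.le
  set g0 := (gaussianReal 0 1).real (Set.Ioo a b) with hg0
  set g1 := (gaussianReal 0 1).real (Set.Ioo (a + η) (b - η)) with hg1
  have h8 : κ * g0 ≤ κ * g1 + ε / 8 := by
    have : κ * g0 ≤ κ * (g1 + 2 * η) := by gcongr
    nlinarith
  have hmA : 0 < m * A := by positivity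
  have h9 : (κ * g0 - ε) * (m * A) ≤ (κ * g1 - ε / 4) * (m * A) - ε / 4 * (m * A) := by
    have : (κ * g1 - ε / 4) * (m * A) - ε / 4 * (m * A) = (κ * g1 - ε / 2) * (m * A) := by ring
    rw [this]
    apply mul_le_mul_of_nonneg_right _ hmA.le
    linarith
  linarith

lemma Wgt.w_zero (W : Wgt) (h : W.m = 0) (t : ℝ) : W.w t = 0 :=
  le_antisymm (by have := W.w_le t; rwa [h, mul_zero] at this) (W.w_nonneg t)

open Classical in
/-- the lower bound, for all intervals -/
theorem wlaw_low {κ : ℝ} {F : ℝ → ℝ → Finset ℂ} (hF : Sel κ F) (hκ0 : 0 ≤ κ) (hκ1 : κ ≤ 1) (W : Wgt) {I : Set ℝ} (hI : I.OrdConnected)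
    (ε : ℝ) (hε : 0 < ε) :
    ∃ d : ℝ, 0 < d ∧ d ≤ 1 ∧ ∀ᶠ T : ℝ in atTop,
    (κ * (gaussianReal 0 1).real I - ε) * (W.m * (Real.log T / (2 * Real.pi) * T)) ≤
    ∑ s ∈ (F d T).filter (fun s => yn T s ∈ I), W.w s.im := by
  rcases eq_or_lt_of_le W.m_nonneg with h0 | hm
  · refine ⟨1, one_pos, le_rfl, Eventually.of_forall fun T => ?_⟩
    rw [← h0]
    simp only [zero_mul, mul_zero]
    exact Finset.sum_nonneg fun s _ => W.w_nonneg _
  rcases lt_or_ge (ε / 2) ((gaussianReal 0 1).real I) with h | h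
  · obtain ⟨a, b, hab, hsub, h1⟩ := inner hI (ε / 2) (by positivity) h
    obtain ⟨d, hd0, hd1, h2⟩ := wlaw_iso hF hκ0 hκ1 W hm a b (ε / 2) hab (by positivity)
    refine ⟨d, hd0, hd1, ?_⟩
    filter_upwards [h2, eventually_ge_atTop (1 : ℝ)] with T h2 hT
    have hpi := Real.pi_pos
    have hL : 0 ≤ Real.log T := Real.log_nonneg hT
    have h3 : ∑ s ∈ (F d T).filter (fun s => a < yn T s ∧ yn T s < b), W.w s.im ≤
        ∑ s ∈ (F d T).filter (fun s => yn T s ∈ I), W.w s.im := by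
      refine Finset.sum_le_sum_of_subset_of_nonneg ?_ fun s _ _ => W.w_nonneg _
      intro s hs
      rw [Finset.mem_filter] at hs ⊢
      exact ⟨hs.1, hsub hs.2⟩
    refine le_trans ?_ (h2.trans h3)
    apply mul_le_mul_of_nonneg_right _ (by positivity)
    have : κ * (gaussianReal 0 1).real I ≤ κ * ((gaussianReal 0 1).real (Set.Ioo a b) + ε / 2) := by
      apply mul_le_mul_of_nonneg_left h1 hκ0
    nlinarith
  · refine ⟨1, one_pos, le_rfl, ?_⟩
    filter_upwards [eventually_ge_atTop (1 : ℝ)] with T hT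
    have hpi := Real.pi_pos
    have hL : 0 ≤ Real.log T := Real.log_nonneg hT
    have h1 : κ * (gaussianReal 0 1).real I - ε ≤ 0 := by
      have h0 : 0 ≤ (gaussianReal 0 1).real I := measureReal_nonneg
      nlinarith
    have h2 : (κ * (gaussianReal 0 1).real I - ε) * (W.m * (Real.log T / (2 * Real.pi) * T)) ≤ 0 :=
      mul_nonpos_of_nonpos_of_nonneg h1 (by positivity)
    exact h2.trans (Finset.sum_nonneg fun s _ => W.w_nonneg _)

end

end Pool.Agent.H4.LD
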