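import Pool.Agent.H4.LD.Mo
import Pool.Agent.H4.UZ.Fi

set_option autoImplicit false

/-! Continuous nonnegative functions of the phases of the small primes as weights. -/

open Filter Topology MeasureTheory Complex

namespace Pool.Agent.H4.LD

open Pool.Agent Pool.Agent.Q97.UM TH803TW
open Pool.Agent.X107.UZ (kN aN pN pN_prime pN_mem)

noncomputable section

/-- the integer attached to an exponent vector -/
def qn (N B : ℕ) (n : Fin (kN N) → ℤ) : ℕ := ∏ l, (pN N l) ^ ((B : ℤ) - n l).toNat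

lemma qn_pos (N B : ℕ) (n : Fin (kN N) → ℤ) : 0 < qn N B n :=
  Finset.prod_pos fun l _ => pow_pos (pN_prime N l).pos _

lemma qn_prime {N B : ℕ} {n : Fin (kN N) → ℤ} {p : ℕ} (hp : p.Prime) (h : p ∣ qn N B n) : p ≤ N := by
  obtain ⟨l, -, hl⟩ := (hp.prime.dvd_finsetProd_iff _).1 h
  have h1 := hp.dvd_of_dvd_pow hl
  rw [(Nat.prime_dvd_prime_iff_eq hp (pN_prime N l)).1 h1]
  have h2 := pN_mem N l
  exact (Finset.mem_Icc.1 (Finset.mem_filter.1 h2).1).2

lemma log_qn {N B : ℕ} {n : Fin (kN N) → ℤ} (hB : ∀ l, n l ≤ B) :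
    Real.log (qn N B n) = B * ∑ l, Real.log (pN N l) - ∑ l, (n l : ℝ) * Real.log (pN N l) := by
  unfold qn
  push_cast
  rw [Real.log_prod (fun l _ => by
    have : (0 : ℝ) < pN N l := by exact_mod_cast (pN_prime N l).pos
    positivity), Finset.mul_sum, ← Finset.sum_sub_distrib]
  refine Finset.sum_congr rfl fun l _ => ?_
  rw [Real.log_pow]
  have h1 : ((((B : ℤ) - n l).toNat : ℕ) : ℝ) = (B : ℝ) - n l := by
    have h2 : ((((B : ℤ) - n l).toNat : ℕ) : ℤ) = (B : ℤ) - n l := Int.toNat_of_nonneg (by have := hB l; omega)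
    have h3 : (((((B : ℤ) - n l).toNat : ℕ) : ℤ) : ℝ) = (((B : ℤ) - n l : ℤ) : ℝ) := by rw [h2]
    push_cast at h3
    exact h3
  rw [h1]
  ring

lemma mF_qn {N B : ℕ} {n : Fin (kN N) → ℤ} (hB : ∀ l, n l ≤ B) (t : ℝ) :
    UnitAddTorus.mFourier n (torusPt (aN N) t) =
      cexp (I * ((B * ∑ l, Real.log (pN N l) : ℝ) : ℂ) * t) * ((Real.sqrt (qn N B n) : ℂ) * (qn N B n : ℂ) ^ (-(1 / 2 + t * I) : ℂ)) := by
  have hq : (0 : ℝ) < qn N B n := by exact_mod_cast qn_pos N B n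
  have hq0 : (qn N B n : ℂ) ≠ 0 := by exact_mod_cast hq.ne'
  rw [mFourier_torusPt]
  have h1 : freq (aN N) n = ∑ l, (n l : ℝ) * Real.log (pN N l) := by
    unfold freq aN
    rw [Finset.mul_sum]
    refine Finset.sum_congr rfl fun l _ => ?_
    have := Real.pi_ne_zero
    field_simp
  have h2 : ((Real.sqrt (qn N B n) : ℝ) : ℂ) = cexp ((1 / 2 : ℂ) * (Real.log (qn N B n) : ℂ)) := by
    rw [Real.sqrt_eq_rpow, Real.rpow_def_of_pos hq]
    push_cast
    congr 1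
    ring
  have h3 : (qn N B n : ℂ) ^ (-(1 / 2 + t * I) : ℂ) = cexp ((Real.log (qn N B n) : ℂ) * (-(1 / 2 + t * I))) := by
    rw [cpow_def_of_ne_zero hq0, ← Complex.natCast_log]
  rw [h2, h3, ← Complex.exp_add, ← Complex.exp_add, h1, log_qn hB]
  congr 1
  push_cast
  ring

/-- trigonometric polynomials as Dirichlet polynomials -/
theorem exists_poly (N : ℕ) (s : Finset (Fin (kN N) → ℤ)) (a : (Fin (kN N) → ℤ) → ℂ) :
    ∃ W : Wgt, ∀ t : ℝ, W.w t = ‖∑ n ∈ s, a n * UnitAddTorus.mFourier n (torusPt (aN N) t)‖ ^ 2 := by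
  classical
  obtain ⟨B, hB⟩ : ∃ B : ℕ, ∀ n ∈ s, ∀ l, n l ≤ B := by
    refine ⟨s.sup fun n => Finset.univ.sup fun l => (n l).toNat, fun n hn l => ?_⟩
    have h1 : (n l).toNat ≤ Finset.univ.sup fun l => (n l).toNat := Finset.le_sup (f := fun l => (n l).toNat) (Finset.mem_univ l)
    have h2 : (Finset.univ.sup fun l => (n l).toNat) ≤ s.sup fun n => Finset.univ.sup fun l => (n l).toNat :=
      Finset.le_sup (f := fun n : Fin (kN N) → ℤ => Finset.univ.sup fun l => (n l).toNat) hn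
    have h3 := Int.self_le_toNat (n l)
    omega
  set M := ∑ n ∈ s, qn N B n + 1 with hM
  have hqM : ∀ n ∈ s, qn N B n ≤ M := fun n hn => by
    have : qn N B n ≤ ∑ n ∈ s, qn N B n := Finset.single_le_sum (f := fun n => qn N B n) (fun _ _ => Nat.zero_le _) hn
    omega
  set c : ℕ → ℂ := fun q => (Real.sqrt q : ℂ) * ∑ n ∈ s.filter (fun n => qn N B n = q), a n with hc
  have hc0 : ∀ q, c q ≠ 0 → ∃ n ∈ s, qn N B n = q := by
    intro q hq
    obtain ⟨n, hn, -⟩ := Finset.exists_ne_zero_of_sum_ne_zero (right_ne_zero_of_mul hq)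
    rw [Finset.mem_filter] at hn
    exact ⟨n, hn⟩
  refine ⟨⟨M, c, N, by omega, fun q hq => ?_⟩, fun t => ?_⟩
  · obtain ⟨n, hn, rfl⟩ := hc0 q hq
    exact ⟨qn_pos N B n, hqM n hn, fun p hp hd => qn_prime hp hd⟩
  · change ‖dp M c t‖ ^ 2 = _
    have h1 : dp M c t = ∑ n ∈ s, a n * ((Real.sqrt (qn N B n) : ℂ) * (qn N B n : ℂ) ^ (-(1 / 2 + t * I) : ℂ)) := by
      unfold dp
      rw [← Finset.sum_fiberwise_of_maps_to (s := s) (t := Finset.Icc 1 M) (g := fun n => qn N B n)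
        (fun n hn => Finset.mem_Icc.2 ⟨qn_pos N B n, hqM n hn⟩)]
      refine Finset.sum_congr rfl fun q _ => ?_
      change (Real.sqrt q : ℂ) * (∑ n ∈ s.filter (fun n => qn N B n = q), a n) * _ = _
      rw [mul_assoc, Finset.sum_mul, Finset.mul_sum]
      refine Finset.sum_congr rfl fun n hn => ?_
      rw [(Finset.mem_filter.1 hn).2]
      ring
    have h2 : ∑ n ∈ s, a n * UnitAddTorus.mFourier n (torusPt (aN N) t) =
        cexp (I * ((B * ∑ l, Real.log (pN N l) : ℝ) : ℂ) * t) * dp M c t := by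
      rw [h1, Finset.mul_sum]
      refine Finset.sum_congr rfl fun n hn => ?_
      rw [mF_qn (hB n hn) t]
      ring
    rw [h2, norm_mul]
    have h3 : ‖cexp (I * ((B * ∑ l, Real.log (pN N l) : ℝ) : ℂ) * t)‖ = 1 := by
      have : I * ((B * ∑ l, Real.log (pN N l) : ℝ) : ℂ) * t = ((B * (∑ l, Real.log (pN N l)) * t : ℝ) : ℂ) * I := by
        push_cast
        ring
      rw [this, Complex.norm_exp_ofReal_mul_I]
    rw [h3, one_mul]

/-- continuous functions on the torus as weights -/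
theorem exists_wgt (N : ℕ) (f : C(UnitAddTorus (Fin (kN N)), ℝ)) (hf : ∀ u, 0 ≤ f u ∧ f u ≤ 1) {ε : ℝ} (hε : 0 < ε) :
    ∃ W : Wgt, ∀ t : ℝ, |W.w t - f (torusPt (aN N) t)| ≤ ε := by
  classical
  obtain ⟨δ, hδ⟩ : ∃ δ, δ = min 1 (ε / 3) := ⟨_, rfl⟩
  have hδ0 : 0 < δ := by rw [hδ]; positivity
  have hδ1 : δ ≤ 1 := by rw [hδ]; exact min_le_left _ _
  have hδ2 : δ ≤ ε / 3 := by rw [hδ]; exact min_le_right _ _
  set g : C(UnitAddTorus (Fin (kN N)), ℂ) := ⟨fun x => (Real.sqrt (f x) : ℂ), by fun_prop⟩ with hg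
  have hmem : g ∈ (Submodule.span ℂ (Set.range <| UnitAddTorus.mFourier (d := Fin (kN N)))).topologicalClosure := by
    rw [UnitAddTorus.span_mFourier_closure_eq_top]; trivial
  have hcl : g ∈ closure ((Submodule.span ℂ (Set.range <| UnitAddTorus.mFourier (d := Fin (kN N))) :
      Submodule ℂ C(UnitAddTorus (Fin (kN N)), ℂ)) : Set C(UnitAddTorus (Fin (kN N)), ℂ)) := hmem
  obtain ⟨p, hp, hpg⟩ := Metric.mem_closure_iff.1 hcl δ hδ0
  obtain ⟨a, ha⟩ := (Finsupp.mem_span_range_iff_exists_finsupp).1 hp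
  have hpx : ∀ x, p x = ∑ n ∈ a.support, a n * UnitAddTorus.mFourier n x := by
    intro x
    rw [← ha, Finsupp.sum, ContinuousMap.sum_apply]
    rfl
  have hdist : ∀ x, ‖(Real.sqrt (f x) : ℂ) - p x‖ ≤ δ := by
    intro x
    have h1 := ContinuousMap.dist_apply_le_dist (f := g) (g := p) x
    rw [dist_eq_norm] at h1
    exact h1.trans hpg.le
  obtain ⟨W, hW⟩ := exists_poly N a.support a
  refine ⟨W, fun t => ?_⟩
  rw [hW, ← hpx]
  set x := torusPt (aN N) t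
  obtain ⟨h0, h1⟩ := hf x
  have h2 : Real.sqrt (f x) ^ 2 = f x := Real.sq_sqrt h0
  have h3 : Real.sqrt (f x) ≤ 1 := Real.sqrt_le_one.2 h1
  have h4 : 0 ≤ Real.sqrt (f x) := Real.sqrt_nonneg _
  have h5 : |‖p x‖ - Real.sqrt (f x)| ≤ δ := by
    have h6 := abs_norm_sub_norm_le (p x) (Real.sqrt (f x) : ℂ)
    have h7 : ‖(Real.sqrt (f x) : ℂ)‖ = Real.sqrt (f x) := by
      rw [Complex.norm_real, Real.norm_of_nonneg h4]
    rw [h7] at h6
    refine h6.trans ?_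
    rw [norm_sub_rev]
    exact hdist x
  rw [abs_le] at h5
  have h8 : ‖p x‖ ^ 2 - f x = (‖p x‖ - Real.sqrt (f x)) * (‖p x‖ + Real.sqrt (f x)) := by
    linear_combination h2
  rw [h8, abs_mul, abs_of_nonneg (show 0 ≤ ‖p x‖ + Real.sqrt (f x) by positivity)]
  calc |‖p x‖ - Real.sqrt (f x)| * (‖p x‖ + Real.sqrt (f x)) ≤ δ * 3 := by
        apply mul_le_mul (by rw [abs_le]; exact h5) (by linarith [h5.2]) (by positivity) hδ0.le
    _ ≤ ε := by linarith

end

end Pool.Agent.H4.LD
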