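import Pool.Graph.R_pool_sql_team_seeded_3997aac3.Q285.UM.WIDA
import Pool.Graph.R_pool_sql_team_seeded_3997aac3.Q38.UM.PWKA
import Pool.Graph.R_pool_sql_team_seeded_3997aac3.Q84.UM.DPM

set_option autoImplicit false

/-! Polynomials in the prime sum over the primes `> y`, multiplied by the square of a polynomial over the primes `≤ y`. -/

open Filter Topology MeasureTheory Complex ProbabilityTheory

namespace Pool.Agent.H4.LD

open Pool.Agent Pool.Agent.Q97.UM
open Pool.Agent.Q96.UM (N2_nonneg dp_mul dp_add dp_sub dp_ext N2_ext N2_mul N2_add_disj N2_sub_disj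
  re_mul_conj re_pow gm_sum sg sg_pos)
open Pool.Agent.Q285.UM (una bta RNa_eq dp_bta N2_bta N2_lima va_bd bta_disj gv gms int_eval ll_tendsto)

noncomputable section

theorem hPWKA : S_PWKA := Pool.Agent.Q38.UM.t_PWKA Pool.Agent.Q84.UM.t_DPM

/-- support condition -/
def Sup (α b : ℕ → ℂ) : Prop := ∀ n, b n ≠ 0 → 1 ≤ n ∧ ∀ p : ℕ, p.Prime → p ∣ n → α p ≠ 0

lemma Sup.add {α b c : ℕ → ℂ} (hb : Sup α b) (hc : Sup α c) : Sup α (fun n => b n + c n) := by
  intro n hn
  by_cases h : b n = 0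
  · refine hc n fun h2 => hn ?_
    simp [h, h2]
  · exact hb n h

lemma Sup.sub {α b c : ℕ → ℂ} (hb : Sup α b) (hc : Sup α c) : Sup α (fun n => b n - c n) := by
  intro n hn
  by_cases h : b n = 0
  · refine hc n fun h2 => hn ?_
    simp [h, h2]
  · exact hb n h

lemma Sup.smul {α b : ℕ → ℂ} (c : ℂ) (hb : Sup α b) : Sup α (fun n => c * b n) := fun n hn =>
  hb n (right_ne_zero_of_mul hn)

lemma pka_sup (α : ℕ → ℂ) (X k : ℕ) : Sup α (pka α X k) := by
  induction k with
  | zero =>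
    intro n hn
    have h1 : n = 1 := by
      by_contra h
      exact hn (by simp [pka, h])
    subst h1
    refine ⟨le_rfl, fun p hp hd => absurd (Nat.dvd_one.1 hd) hp.one_lt.ne'⟩
  | succ k ih =>
    intro n hn
    have hn' : cv (pca α X) (pka α X k) n ≠ 0 := hn
    unfold cv at hn'
    obtain ⟨⟨u, v⟩, huv, h1⟩ := Finset.exists_ne_zero_of_sum_ne_zero hn'
    obtain ⟨h2, h3⟩ := Nat.mem_divisorsAntidiagonal.1 huv
    simp only at h1 h2
    have hu := left_ne_zero_of_mul h1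
    have hv := ih v (right_ne_zero_of_mul h1)
    refine ⟨Nat.one_le_iff_ne_zero.2 h3, fun p hp hd => ?_⟩
    rw [← h2] at hd
    rcases (hp.dvd_mul).1 hd with h4 | h4
    · unfold pca at hu
      by_cases h5 : u.Prime ∧ u ≤ X
      · rw [if_pos h5] at hu
        rwa [(Nat.prime_dvd_prime_iff_eq hp h5.1).1 h4]
      · rw [if_neg h5] at hu
        exact absurd rfl hu
    · exact hv.2 p hp h4

/-- functions which are signed combinations, uniformly in the bounded coefficients `α`, with supports -/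
def Gs (A : ℝ) (D : ℕ) (f : (ℕ → ℂ) → ℕ → ℝ → ℝ) (m : (ℕ → ℂ) → ℕ → ℝ) : Prop :=
  ∃ C : ℝ, 0 ≤ C ∧ ∀ ε : ℝ, 0 < ε →
  ∀ᶠ X : ℕ in atTop, ∀ N : ℕ, X ^ D ≤ N → ∀ α : ℕ → ℂ, (∀ n, ‖α n‖ ≤ A) →
  ∃ (J : ℕ) (a : Fin J → ℝ) (b : Fin J → ℕ → ℂ), (∀ t : ℝ, WT N a b t = f α X t) ∧ VW N a b ≤ C ∧
    |MW N a b - m α X| ≤ ε ∧ (∀ i, Sup α (b i)) ∧ (∀ i n, N < n → b i n = 0)

lemma Gs.add {A : ℝ} {D : ℕ} {f g : (ℕ → ℂ) → ℕ → ℝ → ℝ} {m m' : (ℕ → ℂ) → ℕ → ℝ}
    (hf : Gs A D f m) (hg : Gs A D g m') :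
    Gs A D (fun α X t => f α X t + g α X t) (fun α X => m α X + m' α X) := by
  obtain ⟨C, hC, h1⟩ := hf
  obtain ⟨C', hC', h2⟩ := hg
  refine ⟨C + C', by positivity, fun ε hε => ?_⟩
  filter_upwards [h1 (ε / 2) (by positivity), h2 (ε / 2) (by positivity)] with X k1 k2 N hN α hα
  obtain ⟨J, a, b, l1, l2, l3, l4, l5⟩ := k1 N hN α hα
  obtain ⟨J', a', b', l1', l2', l3', l4', l5'⟩ := k2 N hN α hα
  refine ⟨J + J', Fin.append a a', Fin.append b b', fun t => ?_, ?_, ?_, ?_, ?_⟩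
  · unfold WT
    rw [Fin.sum_univ_add]
    simp only [Fin.append_left, Fin.append_right]
    rw [← l1 t, ← l1' t]
    rfl
  · unfold VW at *
    rw [Fin.sum_univ_add]
    simp only [Fin.append_left, Fin.append_right]
    linarith
  · unfold MW at *
    rw [Fin.sum_univ_add]
    simp only [Fin.append_left, Fin.append_right]
    rw [abs_le] at *
    constructor <;> linarith
  · intro i
    refine Fin.addCases (fun j => ?_) (fun j => ?_) i
    · rw [Fin.append_left]; exact l4 j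
    · rw [Fin.append_right]; exact l4' j
  · intro i
    refine Fin.addCases (fun j => ?_) (fun j => ?_) i
    · rw [Fin.append_left]; exact l5 j
    · rw [Fin.append_right]; exact l5' j

lemma Gs.smul {A : ℝ} {D : ℕ} {f : (ℕ → ℂ) → ℕ → ℝ → ℝ} {m : (ℕ → ℂ) → ℕ → ℝ} (c : ℝ)
    (hf : Gs A D f m) : Gs A D (fun α X t => c * f α X t) (fun α X => c * m α X) := by
  obtain ⟨C, hC, h1⟩ := hf
  refine ⟨|c| * C, by positivity, fun ε hε => ?_⟩
  filter_upwards [h1 (ε / (|c| + 1)) (by positivity)] with X k1 N hN α hα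
  obtain ⟨J, a, b, l1, l2, l3, l4, l5⟩ := k1 N hN α hα
  refine ⟨J, fun i => c * a i, b, fun t => ?_, ?_, ?_, l4, l5⟩
  · rw [← l1 t]
    unfold WT
    rw [Finset.mul_sum]
    exact Finset.sum_congr rfl fun i _ => by ring
  · have : VW N (fun i => c * a i) b = |c| * VW N a b := by
      unfold VW
      rw [Finset.mul_sum]
      exact Finset.sum_congr rfl fun i _ => by rw [abs_mul]; ring
    rw [this]
    exact mul_le_mul_of_nonneg_left l2 (abs_nonneg _)
  · have : MW N (fun i => c * a i) b = c * MW N a b := by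
      unfold MW
      rw [Finset.mul_sum]
      exact Finset.sum_congr rfl fun i _ => by ring
    rw [this, ← mul_sub, abs_mul]
    calc |c| * |MW N a b - m α X| ≤ |c| * (ε / (|c| + 1)) :=
        mul_le_mul_of_nonneg_left l3 (abs_nonneg _)
      _ ≤ (|c| + 1) * (ε / (|c| + 1)) := by
        apply mul_le_mul_of_nonneg_right (by linarith) (by positivity)
      _ = ε := by field_simp

lemma Gs.zero (A : ℝ) (D : ℕ) : Gs A D (fun _ _ _ => 0) (fun _ _ => 0) := by
  refine ⟨0, le_rfl, fun ε hε => Eventually.of_forall fun X N _ α _ => ⟨0, Fin.elim0, Fin.elim0,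
    fun t => ?_, ?_, ?_, fun i => i.elim0, fun i => i.elim0⟩⟩
  · simp [WT]
  · simp [VW]
  · simp [MW, hε.le]

lemma Gs.sum {A : ℝ} {D : ℕ} (s : Finset ℕ) (f : ℕ → (ℕ → ℂ) → ℕ → ℝ → ℝ)
    (m : ℕ → (ℕ → ℂ) → ℕ → ℝ) (h : ∀ i ∈ s, Gs A D (f i) (m i)) :
    Gs A D (fun α X t => ∑ i ∈ s, f i α X t) (fun α X => ∑ i ∈ s, m i α X) := by
  induction s using Finset.induction_on with
  | empty => simpa using Gs.zero A D
  | insert i s hi ih =>
    have h1 := (h i (Finset.mem_insert_self i s)).add (ih fun j hj => h j (Finset.mem_insert_of_mem hj))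
    simp only [Finset.sum_insert hi]
    exact h1

lemma Gs.congr {A : ℝ} {D : ℕ} {f g : (ℕ → ℂ) → ℕ → ℝ → ℝ} {m m' : (ℕ → ℂ) → ℕ → ℝ}
    (hf : Gs A D f m) (h : ∀ α X t, f α X t = g α X t)
    (h' : ∀ α X, m α X = m' α X) : Gs A D g m' := by
  have e1 : f = g := by funext α X t; exact h α X t
  have e2 : m = m' := by funext α X; exact h' α X
  rw [← e1, ← e2]
  exact hf

lemma bta_sup (α : ℕ → ℂ) (X j : ℕ) : Sup α (bta α X j) := (pka_sup α X j).smul _

lemma bta_zero {α : ℕ → ℂ} {D X j N : ℕ} (hj : j ≤ D) (hX : 1 ≤ X) (hN : X ^ D ≤ N) {n : ℕ} (hn : N < n) :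
    bta α X j n = 0 := by
  have h1 : X ^ j ≤ N := (Nat.pow_le_pow_right hX hj).trans hN
  by_contra hne
  have := (hPWKA.2.1 α j X n (right_ne_zero_of_mul hne)).2.1
  omega

/-- the base case -/
lemma Gs.base {A : ℝ} (hA : 0 ≤ A) {D j l : ℕ} (hj : j ≤ D) (hl : l ≤ D) :
    Gs A D (fun α X t => (una α X t ^ j * (starRingEnd ℂ) (una α X t ^ l)).re)
      (fun α X => if j = l then (j.factorial * 2 ^ j * va α X ^ j : ℝ) else 0) := by
  have h := hPWKA
  refine ⟨(j.factorial * 2 ^ j * (2 * A ^ 2) ^ j + 1) + (l.factorial * 2 ^ l * (2 * A ^ 2) ^ l + 1),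
    by positivity, fun ε hε => ?_⟩
  filter_upwards [N2_lima h hA j (lt_min hε one_pos), N2_lima h hA l (lt_min hε one_pos), va_bd A,
    eventually_ge_atTop 1] with X c1 c2 c3 hX N hN α hα
  have d1 := c1 α hα
  have d2 := c2 α hα
  obtain ⟨v0, v1⟩ := c3 α hα
  rw [← N2_bta h hj hX hN, abs_le] at d1
  rw [← N2_bta h hl hX hN, abs_le] at d2
  have m1 := min_le_left ε 1
  have m2 := min_le_right ε 1
  have w1 : (j.factorial : ℝ) * 2 ^ j * va α X ^ j ≤ j.factorial * 2 ^ j * (2 * A ^ 2) ^ j :=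
    mul_le_mul_of_nonneg_left (pow_le_pow_left₀ v0 v1 j) (by positivity)
  have w2 : (l.factorial : ℝ) * 2 ^ l * va α X ^ l ≤ l.factorial * 2 ^ l * (2 * A ^ 2) ^ l :=
    mul_le_mul_of_nonneg_left (pow_le_pow_left₀ v0 v1 l) (by positivity)
  refine ⟨2, ![1 / 4, -(1 / 4)], ![fun n => bta α X j n + bta α X l n,
    fun n => bta α X j n - bta α X l n], fun t => ?_, ?_, ?_, ?_, ?_⟩
  · unfold WT
    rw [Fin.sum_univ_two]
    simp only [Matrix.cons_val_zero, Matrix.cons_val_one]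
    rw [dp_add, dp_sub, dp_bta h hj hX hN, dp_bta h hl hX hN, re_mul_conj]
  · unfold VW
    rw [Fin.sum_univ_two]
    simp only [Matrix.cons_val_zero, Matrix.cons_val_one]
    rw [abs_neg, abs_of_pos (by norm_num : (0 : ℝ) < 1 / 4)]
    have n1 := N2_nonneg N (bta α X j)
    have n2 := N2_nonneg N (bta α X l)
    by_cases hjl : j = l
    · subst hjl
      have e1 : N2 N (fun n => bta α X j n + bta α X j n) = 4 * N2 N (bta α X j) := by
        have : (fun n => bta α X j n + bta α X j n) = fun n => (2 : ℂ) * bta α X j n := by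
          funext n; ring
        rw [this, N2_mul]; norm_num
      have e2 : N2 N (fun n => bta α X j n - bta α X j n) = 0 := by
        simp [N2]
      rw [e1, e2]
      linarith
    · rw [N2_add_disj N _ _ (bta_disj h hjl X), N2_sub_disj N _ _ (bta_disj h hjl X)]
      linarith
  · unfold MW
    rw [Fin.sum_univ_two]
    simp only [Matrix.cons_val_zero, Matrix.cons_val_one]
    by_cases hjl : j = l
    · subst hjl
      have e1 : N2 N (fun n => bta α X j n + bta α X j n) = 4 * N2 N (bta α X j) := by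
        have : (fun n => bta α X j n + bta α X j n) = fun n => (2 : ℂ) * bta α X j n := by
          funext n; ring
        rw [this, N2_mul]; norm_num
      have e2 : N2 N (fun n => bta α X j n - bta α X j n) = 0 := by
        simp [N2]
      rw [e1, e2, if_pos rfl, abs_le]
      constructor <;> linarith
    · rw [N2_add_disj N _ _ (bta_disj h hjl X), N2_sub_disj N _ _ (bta_disj h hjl X), if_neg hjl,
        abs_le]
      constructor <;> linarith
  · intro i
    fin_cases i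
    · exact (bta_sup α X j).add (bta_sup α X l)
    · exact (bta_sup α X j).sub (bta_sup α X l)
  · intro i n hn
    have z1 := bta_zero (α := α) hj hX hN hn
    have z2 := bta_zero (α := α) hl hX hN hn
    fin_cases i
    · change bta α X j n + bta α X l n = 0
      rw [z1, z2, add_zero]
    · change bta α X j n - bta α X l n = 0
      rw [z1, z2, sub_zero]

lemma Gs.mono {A : ℝ} (hA : 0 ≤ A) {D k : ℕ} (hk : k ≤ D) :
    Gs A D (fun α X t => RNa α X t ^ k) (fun α X => gv k (va α X)) := by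
  have h1 := Gs.sum (A := A) (D := D) (Finset.range (k + 1))
    (fun j α X t => (1 / 2) ^ k * (k.choose j : ℝ) *
      (una α X t ^ j * (starRingEnd ℂ) (una α X t ^ (k - j))).re)
    (fun j α X => (1 / 2) ^ k * (k.choose j : ℝ) *
      (if j = k - j then (j.factorial * 2 ^ j * va α X ^ j : ℝ) else 0))
    (fun j hj => Gs.smul _ (Gs.base hA (by
      have := Finset.mem_range.1 hj; omega) (by omega)))
  exact h1.congr (fun α X t => by rw [RNa_eq, re_pow]) (fun α X => rfl)

/-- polynomials in the prime sum, with supports -/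
theorem wida_sup (q : Polynomial ℝ) (A : ℝ) (hA : 0 ≤ A) : ∃ C : ℝ, 0 ≤ C ∧ ∀ ε : ℝ, 0 < ε → ∀ᶠ X : ℕ in atTop,
    ∀ N : ℕ, X ^ q.natDegree ≤ N → ∀ α : ℕ → ℂ, (∀ n, ‖α n‖ ≤ A) →
    ∃ (J : ℕ) (a : Fin J → ℝ) (b : Fin J → ℕ → ℂ), (∀ t : ℝ, WT N a b t = q.eval (RNa α X t)) ∧ VW N a b ≤ C ∧
    |MW N a b - ∫ x, q.eval (Real.sqrt (va α X) * x) ∂(gaussianReal 0 1)| ≤ ε ∧ (∀ i, Sup α (b i)) ∧
    (∀ i n, N < n → b i n = 0) := by
  have h1 := Gs.sum (A := A) (D := q.natDegree) (Finset.range (q.natDegree + 1))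
    (fun k α X t => q.coeff k * RNa α X t ^ k) (fun k α X => q.coeff k * gv k (va α X))
    (fun k hk => Gs.smul _ (Gs.mono hA (by have := Finset.mem_range.1 hk; omega)))
  obtain ⟨C, hC, h2⟩ := h1
  refine ⟨C, hC, fun ε hε => ?_⟩
  filter_upwards [h2 ε hε, va_bd A] with X h3 h4 N hN α hα
  obtain ⟨J, a, b, l1, l2, l3, l4, l5⟩ := h3 N hN α hα
  refine ⟨J, a, b, fun t => ?_, l2, ?_, l4, l5⟩
  · rw [l1 t, Polynomial.eval_eq_sum_range]
  · rw [int_eval q (h4 α hα).1]
    exact l3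

/-- multiplicativity of the mean square for coprime supports -/
theorem N2_cop {M N : ℕ} {c b : ℕ → ℂ} (hc : ∀ n, M < n → c n = 0) (hb : ∀ n, N < n → b n = 0)
    (hcop : ∀ u v, c u ≠ 0 → b v ≠ 0 → Nat.Coprime u v) : N2 (M * N) (cv c b) = N2 M c * N2 N b := by
  -- the norm of the convolution
  have h1 : ∀ k : ℕ, ‖cv c b k‖ ^ 2 = ∑ p ∈ k.divisorsAntidiagonal, ‖c p.1‖ ^ 2 * ‖b p.2‖ ^ 2 := by
    intro k
    unfold cv
    by_cases h : ∃ p ∈ k.divisorsAntidiagonal, c p.1 * b p.2 ≠ 0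
    · obtain ⟨p, hp, hne⟩ := h
      have hu : ∀ q ∈ k.divisorsAntidiagonal, q ≠ p → c q.1 * b q.2 = 0 := by
        intro q hq hqp
        by_contra hne2
        apply hqp
        obtain ⟨e1, e0⟩ := Nat.mem_divisorsAntidiagonal.1 hp
        obtain ⟨e2, -⟩ := Nat.mem_divisorsAntidiagonal.1 hq
        have c1 := hcop _ _ (left_ne_zero_of_mul hne) (right_ne_zero_of_mul hne2)
        have c2 := hcop _ _ (left_ne_zero_of_mul hne2) (right_ne_zero_of_mul hne)
        have d1 : p.1 ∣ q.1 := by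
          refine c1.dvd_of_dvd_mul_right ?_
          rw [e2, ← e1]
          exact Dvd.intro _ rfl
        have d2 : q.1 ∣ p.1 := by
          refine c2.dvd_of_dvd_mul_right ?_
          rw [e1, ← e2]
          exact Dvd.intro _ rfl
        have e3 : q.1 = p.1 := Nat.dvd_antisymm d2 d1
        have hp1 : 0 < p.1 := by
          rcases Nat.eq_zero_or_pos p.1 with h0 | h0
          · rw [h0, zero_mul] at e1
            exact absurd e1.symm e0
          · exact h0
        have e4 : q.2 = p.2 := by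
          rw [e3, ← e1] at e2
          exact Nat.eq_of_mul_eq_mul_left hp1 e2
        exact Prod.ext e3 e4
      rw [Finset.sum_eq_single_of_mem p hp hu, Finset.sum_eq_single_of_mem p hp, norm_mul, mul_pow]
      intro q hq hqp
      have := hu q hq hqp
      rw [← mul_pow, ← norm_mul, this, norm_zero]
      norm_num
    · push Not at h
      rw [Finset.sum_eq_zero h, Finset.sum_eq_zero]
      · norm_num
      · intro p hp
        rw [← mul_pow, ← norm_mul, h p hp, norm_zero]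
        norm_num
  unfold N2
  rw [Finset.sum_mul_sum, ← Finset.sum_product']
  have h2 : ∀ k ∈ Finset.Icc 1 (M * N), ‖cv c b k‖ ^ 2 / (k : ℝ) =
      ∑ p ∈ (Finset.Icc 1 M ×ˢ Finset.Icc 1 N).filter (fun p => p.1 * p.2 = k), ‖c p.1‖ ^ 2 / (p.1 : ℝ) * (‖b p.2‖ ^ 2 / (p.2 : ℝ)) := by
    intro k hk
    have hk1 := (Finset.mem_Icc.1 hk).1
    rw [h1, Finset.sum_div]
    have hsub : (Finset.Icc 1 M ×ˢ Finset.Icc 1 N).filter (fun p => p.1 * p.2 = k) ⊆ k.divisorsAntidiagonal := by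
      intro p hp
      rw [Finset.mem_filter] at hp
      rw [Nat.mem_divisorsAntidiagonal]
      exact ⟨hp.2, by omega⟩
    rw [← Finset.sum_subset hsub]
    · refine Finset.sum_congr rfl fun p hp => ?_
      have h3 := (Finset.mem_filter.1 hp).2
      rw [← h3]
      push_cast
      rw [mul_div_mul_comm]
    · intro p hp hp2
      obtain ⟨e1, e0⟩ := Nat.mem_divisorsAntidiagonal.1 hp
      have hp1 : 1 ≤ p.1 := Nat.one_le_iff_ne_zero.2 (by rintro h0; rw [h0, zero_mul] at e1; exact e0 e1.symm)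
      have hp2' : 1 ≤ p.2 := Nat.one_le_iff_ne_zero.2 (by rintro h0; rw [h0, mul_zero] at e1; exact e0 e1.symm)
      rw [Finset.mem_filter, Finset.mem_product, Finset.mem_Icc, Finset.mem_Icc] at hp2
      have h4 : M < p.1 ∨ N < p.2 := by
        by_contra hcon
        push Not at hcon
        exact hp2 ⟨⟨⟨hp1, hcon.1⟩, hp2', hcon.2⟩, e1⟩
      rcases h4 with h4 | h4
      · rw [hc _ h4, norm_zero]; simp
      · rw [hb _ h4, norm_zero]; simp
  rw [Finset.sum_congr rfl h2, ← Finset.sum_fiberwise_of_maps_to (s := Finset.Icc 1 M ×ˢ Finset.Icc 1 N) (t := Finset.Icc 1 (M * N))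
    (g := fun p : ℕ × ℕ => p.1 * p.2)]
  intro p hp
  rw [Finset.mem_product, Finset.mem_Icc, Finset.mem_Icc] at hp
  rw [Finset.mem_Icc]
  exact ⟨Nat.mul_pos hp.1.1 hp.2.1, Nat.mul_le_mul hp.1.2 hp.2.2⟩

end

end Pool.Agent.H4.LD
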